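import Pool.Agent.Q132.FEq.Haus

open Set Filter Topology

namespace Pool.Agent.Q132.FEq

/-- Log-convex positive sequences grow at least geometrically. -/
lemma geo {c : ℕ → ℝ} (hl : ∀ j, c (j + 1) ^ 2 ≤ c j * c (j + 2))
    {ρ : ℝ} (hρ : 0 < ρ) (hc : 0 < c 0) (h1 : ρ * c 0 ≤ c 1) :
    ∀ j, 0 < c j ∧ ρ * c j ≤ c (j + 1) := by
  intro j
  induction j with
  | zero => exact ⟨hc, h1⟩
  | succ j ih =>
    obtain ⟨h2, h3⟩ := ih
    have h4 : 0 < c (j + 1) := lt_of_lt_of_le (mul_pos hρ h2) h3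
    refine ⟨h4, ?_⟩
    have h5 := hl j
    have h6 : c j * (ρ * c (j + 1)) ≤ c j * c (j + 2) := by
      calc c j * (ρ * c (j + 1)) = (ρ * c j) * c (j + 1) := by ring
        _ ≤ c (j + 1) * c (j + 1) := mul_le_mul_of_nonneg_right h3 h4.le
        _ = c (j + 1) ^ 2 := by ring
        _ ≤ _ := h5
    exact le_of_mul_le_mul_left h6 h2

lemma geo_pow {c : ℕ → ℝ} (hl : ∀ j, c (j + 1) ^ 2 ≤ c j * c (j + 2))
    {ρ : ℝ} (hρ : 0 < ρ) (hc : 0 < c 0) (h1 : ρ * c 0 ≤ c 1) (j : ℕ) : ρ ^ j * c 0 ≤ c j := by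
  induction j with
  | zero => simp
  | succ j ih =>
    have h2 := (geo hl hρ hc h1 j).2
    calc ρ ^ (j + 1) * c 0 = ρ * (ρ ^ j * c 0) := by ring
      _ ≤ ρ * c j := mul_le_mul_of_nonneg_left ih hρ.le
      _ ≤ _ := h2

structure Big (X : Set ℝ) (α β : ℝ → ℝ) : Prop where
  closed : IsClosed X
  ca : Continuous α
  ma : ∀ x ∈ X, α x ∈ X
  mb : ∀ x ∈ X, β x ∈ X
  comm : ∀ x ∈ X, α (β x) = β (α x)
  surj : ∀ x ∈ X, ∃ y ∈ X, β y = x
  norm : ∀ x ∈ X, |β x| = |x| + |α x|
  a0 : α 0 = 0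
  nz : ∀ x ∈ X, x ≠ 0 → α x ≠ 0

variable {X : Set ℝ} {α β : ℝ → ℝ}

lemma Big.iter (H : Big X α β) (i : ℕ) {x : ℝ} (hx : x ∈ X) : α^[i] x ∈ X := by
  induction i with
  | zero => exact hx
  | succ i ih => rw [Function.iterate_succ_apply']; exact H.ma _ ih

lemma Big.iter_comm (H : Big X α β) (i : ℕ) {x : ℝ} (hx : x ∈ X) :
    α^[i] (β x) = β (α^[i] x) := by
  induction i with
  | zero => rfl
  | succ i ih =>
    rw [Function.iterate_succ_apply', Function.iterate_succ_apply', ih, H.comm _ (H.iter i hx)]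

lemma Big.lc (H : Big X α β) {h : ℝ → ℝ} (hn : ∀ x ∈ X, 0 ≤ h x)
    (hr : ∀ x ∈ X, h (β x) = h x + h (α x)) {x : ℝ} (hx : x ∈ X) :
    h (α x) ^ 2 ≤ h x * h (α (α x)) := by
  have hs := H.surj
  choose! g hg1 hg2 using hs
  have hgm : ∀ n, g^[n] x ∈ X := by
    intro n
    induction n with
    | zero => exact hx
    | succ n ih => rw [Function.iterate_succ_apply']; exact hg1 _ ih
  let s : ℕ → ℝ := fun n => Nat.casesOn n (β (β x)) (fun m => Nat.casesOn m (β x) (fun k => g^[k] x))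
  have hsm : ∀ n, s n ∈ X := by
    intro n
    rcases n with _ | _ | n
    · exact H.mb _ (H.mb _ hx)
    · exact H.mb _ hx
    · exact hgm n
  have hst : ∀ n, β (s (n + 1)) = s n := by
    intro n
    rcases n with _ | _ | n
    · rfl
    · rfl
    · change β (g^[n + 1] x) = g^[n] x
      rw [Function.iterate_succ_apply', hg2 _ (hgm n)]
  have key := logconv (fun i j => h (α^[i] (s (i + j)))) (fun i j => by
    change h (α^[i] (s (i + j))) = h (α^[i + 1] (s (i + 1 + j))) + h (α^[i] (s (i + (j + 1))))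
    have e : i + 1 + j = i + j + 1 := by ring
    rw [e, ← add_assoc, ← hst (i + j), H.iter_comm i (hsm (i + j + 1)),
      hr _ (H.iter i (hsm (i + j + 1))),
      Function.iterate_succ_apply']
    ring) (fun i j => hn _ (H.iter i (hsm _)))
  have k1 : h (α^[1] (s (1 + 0))) = h (α (β x)) := rfl
  have k0 : h (α^[0] (s (0 + 0))) = h (β (β x)) := rfl
  have k2 : h (α^[2] (s (2 + 0))) = h (α (α x)) := rfl
  simp only [k0, k1, k2] at key
  rw [H.comm _ hx, hr _ (H.mb _ hx), H.comm _ hx, hr _ hx, hr _ (H.ma _ hx)] at key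
  nlinarith

lemma Big.lc_abs (H : Big X α β) {x : ℝ} (hx : x ∈ X) : |α x| ^ 2 ≤ |x| * |α (α x)| :=
  H.lc (h := fun x => |x|) (fun x _ => abs_nonneg x) H.norm hx

lemma Big.isCompact (H : Big X α β) (a b : ℝ) : IsCompact {x | x ∈ X ∧ a ≤ |x| ∧ |x| ≤ b} := by
  have h1 : IsClosed {x | x ∈ X ∧ a ≤ |x| ∧ |x| ≤ b} :=
    H.closed.inter ((isClosed_le continuous_const continuous_abs).inter
      (isClosed_le continuous_abs continuous_const))
  refine (isCompact_Icc (a := -b) (b := b)).of_isClosed_subset h1 ?_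
  rintro x ⟨_, _, h⟩
  exact abs_le.1 h

lemma Big.bound_le_one (H : Big X α β) : ∃ M : ℝ, 1 ≤ M ∧ ∀ x ∈ X, |x| ≤ 1 → |α x| ≤ M * |x| := by
  have hca : Continuous fun x => |α x| := H.ca.abs
  obtain ⟨C1, hC1⟩ := ((H.isCompact 0 1).image hca).isBounded.bddAbove
  obtain ⟨C2, hC2⟩ := ((H.isCompact 1 (max 1 C1)).image hca).isBounded.bddAbove
  refine ⟨max 1 C2, le_max_left _ _, fun x hx hx1 => ?_⟩
  by_contra hcon
  push Not at hcon
  have hx0 : x ≠ 0 := by
    rintro rfl
    rw [H.a0] at hcon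
    simp at hcon
  have hxp : 0 < |x| := abs_pos.2 hx0
  set ρ := |α x| / |x| with hρ
  have hρ1 : max 1 C2 < ρ := by rw [hρ, lt_div_iff₀ hxp]; exact hcon
  have hρ2 : 1 < ρ := lt_of_le_of_lt (le_max_left _ _) hρ1
  set c : ℕ → ℝ := fun j => |α^[j] x| with hc
  have hl : ∀ j, c (j + 1) ^ 2 ≤ c j * c (j + 2) := by
    intro j
    have := H.lc_abs (H.iter j hx)
    simp only [hc]
    rw [Function.iterate_succ_apply', Function.iterate_succ_apply' α (j + 1),
      Function.iterate_succ_apply']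
    exact this
  have hρ3 : ρ * c 0 ≤ c 1 := by
    simp only [hc, hρ]
    rw [Function.iterate_zero_apply, Function.iterate_one, div_mul_cancel₀ _ hxp.ne']
  have hg := geo hl (by linarith) hxp hρ3
  have hgp := geo_pow hl (by linarith : 0 < ρ) hxp hρ3
  have hex : ∃ j, 1 < c j := by
    have h1 := tendsto_pow_atTop_atTop_of_one_lt hρ2
    obtain ⟨j, hj⟩ := (h1.eventually (eventually_gt_atTop (1 / |x|))).exists
    refine ⟨j, lt_of_lt_of_le ?_ (hgp j)⟩
    rw [div_lt_iff₀ hxp] at hj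
    exact hj
  classical
  set j := Nat.find hex with hj
  have h1 : 1 < c j := Nat.find_spec hex
  have hj0 : j ≠ 0 := by
    intro h
    rw [h] at h1
    have : c 0 = |x| := rfl
    linarith
  obtain ⟨i, hi⟩ := Nat.exists_eq_succ_of_ne_zero hj0
  have h2 : c i ≤ 1 := not_lt.1 (Nat.find_min hex (m := i) (by omega))
  have h3 : c j ≤ C1 := by
    apply hC1
    refine ⟨α^[i] x, ⟨H.iter i hx, abs_nonneg _, h2⟩, ?_⟩
    rw [hi]
    simp only [hc]
    rw [Nat.succ_eq_add_one, Function.iterate_succ_apply']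
  have h4 : c (j + 1) ≤ C2 := by
    apply hC2
    refine ⟨α^[j] x, ⟨H.iter j hx, h1.le, h3.trans (le_max_right _ _)⟩, ?_⟩
    simp only [hc]
    rw [Function.iterate_succ_apply']
  have h5 := (hg j).2
  have h6 := le_max_right 1 C2
  nlinarith

lemma Big.bound (H : Big X α β) : ∃ M : ℝ, 1 ≤ M ∧ ∀ x ∈ X, |α x| ≤ M * |x| := by
  obtain ⟨M, hM1, hM⟩ := H.bound_le_one
  refine ⟨M, hM1, fun x0 hx0 => ?_⟩
  by_contra hcon
  push Not at hcon
  have hx01 : 1 < |x0| := by
    by_contra h
    push Not at h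
    linarith [hM x0 hx0 h]
  set K := {x | x ∈ X ∧ 1 ≤ |x| ∧ |x| ≤ |x0|} with hK
  have hKc : IsCompact K := H.isCompact 1 |x0|
  have hcont : ContinuousOn (fun x => |α x| / |x|) K := by
    refine ContinuousOn.div H.ca.abs.continuousOn continuous_abs.continuousOn ?_
    rintro x ⟨_, h, _⟩
    linarith
  obtain ⟨xm, hxm, hmax⟩ := hKc.exists_isMaxOn ⟨x0, hx0, hx01.le, le_rfl⟩ hcont
  set Q := |α xm| / |xm| with hQ
  have hQ1 : M < Q := by
    have h1 := hmax (show x0 ∈ K from ⟨hx0, hx01.le, le_rfl⟩)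
    have h2 : M < |α x0| / |x0| := by rw [lt_div_iff₀ (by linarith)]; exact hcon
    exact lt_of_lt_of_le h2 h1
  set S := {x | x ∈ K ∧ Q * |x| ≤ |α x|} with hS
  have hSc : IsCompact S :=
    hKc.inter_right (isClosed_le (continuous_const.mul continuous_abs) H.ca.abs)
  have hSn : S.Nonempty := ⟨xm, hxm, by
    rw [hQ, div_mul_cancel₀]
    have := hxm.2.1
    linarith⟩
  obtain ⟨xs, hxs, hmin⟩ := hSc.exists_isMinOn hSn (f := fun x => |x|) continuous_abs.continuousOn
  have hless : ∀ z ∈ X, z ≠ 0 → |z| < |xs| → |α z| < Q * |z| := by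
    intro z hz hz0 hzl
    have hzp : 0 < |z| := abs_pos.2 hz0
    rcases le_or_gt |z| 1 with h | h
    · have := hM z hz h
      nlinarith
    · by_contra hcon'
      push Not at hcon'
      have : z ∈ S := ⟨⟨hz, h.le, hzl.le.trans hxs.1.2.2⟩, hcon'⟩
      have := hmin this
      change |xs| ≤ |z| at this
      linarith
  obtain ⟨t, ht, hts⟩ := H.surj xs hxs.1.1
  have hn := H.norm t ht
  rw [hts] at hn
  have hxs1 : 1 ≤ |xs| := hxs.1.2.1
  have ht0 : t ≠ 0 := by
    rintro rfl
    rw [H.a0] at hn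
    simp at hn
    rw [hn] at hxs1
    simp at hxs1
    linarith
  have hat0 := H.nz t ht ht0
  have htp := abs_pos.2 ht0
  have hatp := abs_pos.2 hat0
  have h1 := hless t ht ht0 (by linarith)
  have h2 := hless (α t) (H.ma t ht) hat0 (by linarith)
  have h3 := hxs.2
  have h4 : |α xs| = |α t| + |α (α t)| := by
    rw [← hts, H.comm t ht, H.norm _ (H.ma t ht)]
  nlinarith

/-- The functions `(M - T)^K |x|`. -/
noncomputable def hK (M : ℝ) (α : ℝ → ℝ) : ℕ → ℝ → ℝ
  | 0, x => |x|
  | K + 1, x => M * hK M α K x - hK M α K (α x)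

lemma Big.hK_rec (H : Big X α β) (M : ℝ) (K : ℕ) : ∀ x ∈ X,
    hK M α K (β x) = hK M α K x + hK M α K (α x) := by
  induction K with
  | zero => exact H.norm
  | succ K ih =>
    intro x hx
    simp only [hK]
    rw [ih x hx, H.comm x hx, ih _ (H.ma x hx)]
    ring

lemma Big.hK_nonneg (H : Big X α β) {M : ℝ} (hM1 : 1 ≤ M) (hM : ∀ x ∈ X, |α x| ≤ M * |x|) (K : ℕ) :
    ∀ x ∈ X, 0 ≤ hK M α K x ∧ hK M α K x ≤ M ^ K * |x| := by
  induction K with
  | zero => intro x _; simp [hK]
  | succ K ih =>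
    intro x hx
    have hax := ih _ (H.ma x hx)
    have hxx := ih x hx
    have hpos : 0 ≤ hK M α (K + 1) x := by
      by_contra hcon
      push Not at hcon
      simp only [hK] at hcon
      set c : ℕ → ℝ := fun j => hK M α K (α^[j] x) with hc
      have hc0 : c 0 = hK M α K x := rfl
      have hc1 : c 1 = hK M α K (α x) := rfl
      have hl : ∀ j, c (j + 1) ^ 2 ≤ c j * c (j + 2) := by
        intro j
        have := H.lc (h := hK M α K) (fun y hy => (ih y hy).1) (H.hK_rec M K) (H.iter j hx)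
        simp only [hc]
        rw [Function.iterate_succ_apply', Function.iterate_succ_apply' α (j + 1),
          Function.iterate_succ_apply']
        exact this
      have hlt : M * c 0 < c 1 := by rw [hc0, hc1]; linarith
      have hc0n : 0 ≤ c 0 := hxx.1
      have hc0p : 0 < c 0 := by
        rcases hc0n.eq_or_lt with h | h
        · exfalso
          have h1 := hl 0
          rw [← h, zero_mul] at h1
          have h2 : 0 < c 1 := by rw [← h] at hlt; simpa using hlt
          simp only [zero_add] at h1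
          nlinarith [pow_pos h2 2]
        · exact h
      set ρ := c 1 / c 0 with hρ
      have hρM : M < ρ := by rw [hρ, lt_div_iff₀ hc0p]; exact hlt
      have hgp := geo_pow hl (by linarith : 0 < ρ) hc0p (by rw [hρ, div_mul_cancel₀ _ hc0p.ne'])
      have hup : ∀ j, |α^[j] x| ≤ M ^ j * |x| := by
        intro j
        induction j with
        | zero => simp
        | succ j ihj =>
          rw [Function.iterate_succ_apply', pow_succ]
          have := hM _ (H.iter j hx)
          calc |α (α^[j] x)| ≤ M * |α^[j] x| := this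
            _ ≤ M * (M ^ j * |x|) := mul_le_mul_of_nonneg_left ihj (by linarith)
            _ = _ := by ring
      have hall : ∀ j, (ρ / M) ^ j * c 0 ≤ M ^ K * |x| := by
        intro j
        have h1 := hgp j
        have h2 : c j ≤ M ^ K * |α^[j] x| := (ih _ (H.iter j hx)).2
        have h3 : ρ ^ j * c 0 ≤ M ^ K * (M ^ j * |x|) :=
          h1.trans (h2.trans (mul_le_mul_of_nonneg_left (hup j) (by positivity)))
        rw [div_pow, div_mul_eq_mul_div, div_le_iff₀ (by positivity)]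
        linarith
      have hlim : Tendsto (fun j => (ρ / M) ^ j) atTop atTop :=
        tendsto_pow_atTop_atTop_of_one_lt (by rw [lt_div_iff₀ (by linarith)]; linarith)
      obtain ⟨j, hj⟩ := (hlim.eventually (eventually_gt_atTop (M ^ K * |x| / c 0))).exists
      rw [div_lt_iff₀ hc0p] at hj
      linarith [hall j]
    refine ⟨hpos, ?_⟩
    simp only [hK]
    have : M ^ (K + 1) * |x| = M * (M ^ K * |x|) := by ring
    rw [this]
    have := mul_le_mul_of_nonneg_left hxx.2 (by linarith : (0 : ℝ) ≤ M)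
    linarith [hax.1]

/-- `β` determines the absolute value. -/
theorem Big.inj (H : Big X α β) {x y : ℝ} (hx : x ∈ X) (hy : y ∈ X) (hxy : β x = β y) :
    |x| = |y| := by
  obtain ⟨M, hM1, hM⟩ := H.bound
  have hd : ∀ K, hK M α K x - hK M α K y = (M + 1) ^ K * (|x| - |y|) := by
    intro K
    induction K with
    | zero => simp [hK]
    | succ K ih =>
      have h1 := H.hK_rec M K x hx
      have h2 := H.hK_rec M K y hy
      rw [hxy] at h1
      simp only [hK]
      rw [pow_succ]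
      linear_combination (M + 1) * ih + h1 - h2
  have hb : ∀ K, (M + 1) ^ K * |(|x| - |y|)| ≤ M ^ K * (|x| + |y|) := by
    intro K
    have h1 := H.hK_nonneg hM1 hM K x hx
    have h2 := H.hK_nonneg hM1 hM K y hy
    have h3 : |hK M α K x - hK M α K y| = (M + 1) ^ K * |(|x| - |y|)| := by
      rw [hd K, abs_mul, abs_of_pos (by positivity)]
    rw [← h3, abs_le]
    constructor <;> nlinarith [abs_nonneg x, abs_nonneg y, pow_pos (by linarith : 0 < M) K]
  by_contra hne
  have hpos : 0 < |(|x| - |y|)| := abs_pos.2 (sub_ne_zero.2 hne)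
  have hlim : Tendsto (fun j => ((M + 1) / M) ^ j) atTop atTop :=
    tendsto_pow_atTop_atTop_of_one_lt (by rw [lt_div_iff₀ (by linarith)]; linarith)
  obtain ⟨j, hj⟩ := (hlim.eventually (eventually_gt_atTop ((|x| + |y|) / |(|x| - |y|)|))).exists
  rw [div_lt_iff₀ hpos, div_pow, div_mul_eq_mul_div, lt_div_iff₀ (by positivity)] at hj
  linarith [hb j]

end Pool.Agent.Q132.FEq
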