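import Mathlib

open Finset

namespace Pool.Agent.Q132.FEq

/-! Nonnegative arrays with `w i j = w (i+1) j + w i (j+1)`. -/

lemma sum0 (n : ℕ) : ∀ w : ℕ → ℕ → ℝ, (∀ i j, w i j = w (i + 1) j + w i (j + 1)) →
    ∑ p ∈ antidiagonal n, (n.choose p.1 : ℝ) * w p.1 p.2 = w 0 0 := by
  induction n with
  | zero => intro w _; simp
  | succ n ih =>
    intro w h
    rw [sum_antidiagonal_choose_succ_mul]
    have h1 : ∑ p ∈ antidiagonal n, (n.choose p.2 : ℝ) * w (p.1 + 1) p.2 =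
        ∑ p ∈ antidiagonal n, (n.choose p.1 : ℝ) * w (p.1 + 1) p.2 := by
      refine sum_congr rfl fun p hp => ?_
      rw [HasAntidiagonal.mem_antidiagonal] at hp
      rw [Nat.choose_symm_of_eq_add (a := p.2) (b := p.1) (by omega)]
    rw [h1, ← sum_add_distrib, ← ih w h]
    refine sum_congr rfl fun p _ => ?_
    rw [h p.1 p.2]; ring

lemma sum1 (n : ℕ) : ∀ w : ℕ → ℕ → ℝ, (∀ i j, w i j = w (i + 1) j + w i (j + 1)) →
    ∑ p ∈ antidiagonal n, (n.choose p.1 : ℝ) * ((p.1 : ℝ) * w p.1 p.2) = n * w 1 0 := by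
  induction n with
  | zero => intro w _; simp
  | succ n ih =>
    intro w h
    rw [sum_antidiagonal_choose_succ_mul (fun i j => (i : ℝ) * w i j)]
    have h1 : ∑ p ∈ antidiagonal n, (n.choose p.2 : ℝ) * (((p.1 + 1 : ℕ) : ℝ) * w (p.1 + 1) p.2) =
        ∑ p ∈ antidiagonal n, (n.choose p.1 : ℝ) * ((p.1 : ℝ) * w (p.1 + 1) p.2) +
        ∑ p ∈ antidiagonal n, (n.choose p.1 : ℝ) * w (p.1 + 1) p.2 := by
      rw [← sum_add_distrib]
      refine sum_congr rfl fun p hp => ?_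
      rw [HasAntidiagonal.mem_antidiagonal] at hp
      rw [Nat.choose_symm_of_eq_add (a := p.2) (b := p.1) (by omega)]
      push_cast; ring
    have h2 := sum0 n (fun i j => w (i + 1) j) (fun i j => h (i + 1) j)
    have h3 := ih w h
    rw [h1, h2, ← add_assoc, ← sum_add_distrib]
    have h4 : ∑ p ∈ antidiagonal n, ((n.choose p.1 : ℝ) * ((p.1 : ℝ) * w p.1 (p.2 + 1)) +
        (n.choose p.1 : ℝ) * ((p.1 : ℝ) * w (p.1 + 1) p.2)) = n * w 1 0 := by
      rw [← h3]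
      refine sum_congr rfl fun p _ => ?_
      rw [h p.1 p.2]; ring
    rw [h4]; push_cast; ring

lemma sum2 (n : ℕ) : ∀ w : ℕ → ℕ → ℝ, (∀ i j, w i j = w (i + 1) j + w i (j + 1)) →
    ∑ p ∈ antidiagonal n, (n.choose p.1 : ℝ) * ((p.1 : ℝ) * (p.1 - 1) * w p.1 p.2) =
      n * (n - 1) * w 2 0 := by
  induction n with
  | zero => intro w _; simp
  | succ n ih =>
    intro w h
    rw [sum_antidiagonal_choose_succ_mul (fun i j => (i : ℝ) * (i - 1) * w i j)]
    have h1 : ∑ p ∈ antidiagonal n, (n.choose p.2 : ℝ) *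
          (((p.1 + 1 : ℕ) : ℝ) * (((p.1 + 1 : ℕ) : ℝ) - 1) * w (p.1 + 1) p.2) =
        ∑ p ∈ antidiagonal n, (n.choose p.1 : ℝ) * ((p.1 : ℝ) * (p.1 - 1) * w (p.1 + 1) p.2) +
        2 * ∑ p ∈ antidiagonal n, (n.choose p.1 : ℝ) * ((p.1 : ℝ) * w (p.1 + 1) p.2) := by
      rw [mul_sum, ← sum_add_distrib]
      refine sum_congr rfl fun p hp => ?_
      rw [HasAntidiagonal.mem_antidiagonal] at hp
      rw [Nat.choose_symm_of_eq_add (a := p.2) (b := p.1) (by omega)]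
      push_cast; ring
    have h2 := sum1 n (fun i j => w (i + 1) j) (fun i j => h (i + 1) j)
    have h3 := ih w h
    rw [h1, h2, ← add_assoc, ← sum_add_distrib]
    have h4 : ∑ p ∈ antidiagonal n, ((n.choose p.1 : ℝ) * ((p.1 : ℝ) * (p.1 - 1) * w p.1 (p.2 + 1)) +
        (n.choose p.1 : ℝ) * ((p.1 : ℝ) * (p.1 - 1) * w (p.1 + 1) p.2)) = n * (n - 1) * w 2 0 := by
      rw [← h3]
      refine sum_congr rfl fun p _ => ?_
      rw [h p.1 p.2]; ring
    rw [h4]; push_cast; ring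

/-- Log-convexity. -/
lemma logconv (w : ℕ → ℕ → ℝ) (h : ∀ i j, w i j = w (i + 1) j + w i (j + 1))
    (h0 : ∀ i j, 0 ≤ w i j) : w 1 0 ^ 2 ≤ w 0 0 * w 2 0 := by
  have key : ∀ t : ℝ, 0 ≤ t ^ 2 * w 0 0 - 2 * t * w 1 0 + w 2 0 := by
    intro t
    by_contra hcon
    push Not at hcon
    set Q := t ^ 2 * w 0 0 - 2 * t * w 1 0 + w 2 0 with hQ
    obtain ⟨n, hn⟩ := exists_nat_gt (|w 1 0 - w 2 0| / (-Q))
    have hQ' : 0 < -Q := by linarith
    rw [div_lt_iff₀ hQ'] at hn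
    have hnpos : (0 : ℝ) < n := by
      by_contra h'
      push Not at h'
      have := abs_nonneg (w 1 0 - w 2 0)
      nlinarith
    have e0 := sum0 n w h
    have e1 := sum1 n w h
    have e2 := sum2 n w h
    have hs : 0 ≤ ∑ p ∈ antidiagonal n, (n.choose p.1 : ℝ) * ((t * n - p.1) ^ 2 * w p.1 p.2) :=
      sum_nonneg fun p _ => mul_nonneg (Nat.cast_nonneg _) (mul_nonneg (sq_nonneg _) (h0 _ _))
    have hs' : ∑ p ∈ antidiagonal n, (n.choose p.1 : ℝ) * ((t * n - p.1) ^ 2 * w p.1 p.2) =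
        t ^ 2 * n ^ 2 * w 0 0 - 2 * t * n * (n * w 1 0) + (n * (n - 1) * w 2 0 + n * w 1 0) := by
      rw [← e2, ← e1, ← e0, mul_sum, mul_sum, ← sum_sub_distrib, ← sum_add_distrib,
        ← sum_add_distrib]
      refine sum_congr rfl fun p _ => ?_
      ring
    rw [hs'] at hs
    have : t ^ 2 * n ^ 2 * w 0 0 - 2 * t * n * (n * w 1 0) + (n * (n - 1) * w 2 0 + n * w 1 0) =
        n * (n * Q + (w 1 0 - w 2 0)) := by rw [hQ]; ring
    rw [this] at hs
    have h2 : 0 ≤ n * Q + (w 1 0 - w 2 0) := by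
      by_contra h'
      push Not at h'
      nlinarith
    have h3 := le_abs_self (w 1 0 - w 2 0)
    nlinarith
  have hw10 : w 1 0 ≤ w 0 0 := by
    have := h 0 0
    have := h0 0 1
    simp only [zero_add] at *
    linarith
  rcases (h0 0 0).eq_or_lt with h00 | h00
  · have : w 1 0 = 0 := le_antisymm (by linarith) (h0 1 0)
    rw [this, ← h00]; norm_num
  · have := key (w 1 0 / w 0 0)
    have e : (w 1 0 / w 0 0) ^ 2 * w 0 0 - 2 * (w 1 0 / w 0 0) * w 1 0 + w 2 0 =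
        (w 0 0 * w 2 0 - w 1 0 ^ 2) / w 0 0 := by field_simp; ring
    rw [e] at this
    have := (div_nonneg_iff.1 this)
    rcases this with ⟨h1, _⟩ | ⟨_, h2⟩
    · linarith
    · linarith

end Pool.Agent.Q132.FEq
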