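import Pool.Agent.Q132.FEq.Sign

open Set Filter Topology

namespace Pool.Agent.Q132.FEq

variable {f : ℝ → ℝ}

/-- If `f > 0` on the right, it is linear there. -/
lemma Sol.linear_right (H : Sol f) (hpos : ∀ x, 0 < x → 0 < f x) :
    ∃ a, 0 ≤ a ∧ ∀ x, 0 ≤ x → f x = a * x := by
  have hf0 := H.zero
  have hnn : ∀ x, 0 ≤ x → 0 ≤ f x := by
    intro x hx
    rcases hx.eq_or_lt with h | h
    · rw [← h, hf0]
    · exact (hpos x h).le
  have hphge : ∀ x, 0 ≤ x → x ≤ ph f x := fun x hx => by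
    unfold ph; linarith [hnn x hx]
  have hsurj : ∀ x, 0 ≤ x → ∃ y, 0 ≤ y ∧ ph f y = x := by
    intro x hx
    obtain ⟨y, hy, hyx⟩ := intermediate_value_Icc hx H.cph.continuousOn
      (show x ∈ Icc (ph f 0) (ph f x) by rw [H.ph0]; exact ⟨hx, hphge x hx⟩)
    exact ⟨y, hy.1, hyx⟩
  have HB : Big (Ici 0) f (ph f) :=
    { closed := isClosed_Ici
      ca := H.cont
      ma := fun x hx => hnn x hx
      mb := fun x hx => le_trans hx (hphge x hx)
      comm := fun x _ => H.comm x
      surj := fun x hx => hsurj x hx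
      norm := fun x hx => by
        have h1 : (0 : ℝ) ≤ x := hx
        have h2 := hnn x h1
        rw [abs_of_nonneg h1, abs_of_nonneg h2]
        unfold ph
        rw [abs_of_nonneg (by linarith)]
      a0 := hf0
      nz := fun x hx h0 => (hpos x (lt_of_le_of_ne hx (Ne.symm h0))).ne' }
  have hinj : ∀ x y, 0 ≤ x → 0 ≤ y → ph f x = ph f y → x = y := by
    intro x y hx hy h
    have := HB.inj hx hy h
    rwa [abs_of_nonneg hx, abs_of_nonneg hy] at this
  have hmono : ∀ x y, 0 ≤ x → x < y → ph f x < ph f y := by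
    intro x y hx hxy
    by_contra hcon
    push Not at hcon
    obtain ⟨z, hz, hze⟩ := intermediate_value_Icc hx H.cph.continuousOn
      (show ph f y ∈ Icc (ph f 0) (ph f x) by
        rw [H.ph0]; exact ⟨(hx.trans hxy.le).trans (hphge y (hx.trans hxy.le)), hcon⟩)
    have := hinj z y hz.1 (hx.trans hxy.le) hze
    linarith [hz.2]
  -- a global homeomorphism
  set F : ℝ → ℝ := fun x => x + f (max x 0) with hF
  have hFpos : ∀ x, 0 ≤ x → F x = ph f x := fun x hx => by simp only [hF, ph, max_eq_left hx]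
  have hFneg : ∀ x, x ≤ 0 → F x = x := fun x hx => by
    simp only [hF, max_eq_right hx, hf0, add_zero]
  have hFmono : StrictMono F := by
    intro x y hxy
    rcases le_or_gt 0 x with hx | hx
    · rw [hFpos x hx, hFpos y (hx.trans hxy.le)]; exact hmono x y hx hxy
    · rw [hFneg x hx.le]
      rcases le_or_gt 0 y with hy | hy
      · rw [hFpos y hy]; linarith [hphge y hy]
      · rw [hFneg y hy.le]; exact hxy
  have hFsurj : Function.Surjective F := by
    intro x
    rcases le_or_gt 0 x with hx | hx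
    · obtain ⟨y, hy, hyx⟩ := hsurj x hx
      exact ⟨y, by rw [hFpos y hy, hyx]⟩
    · exact ⟨x, hFneg x hx.le⟩
  set e := StrictMono.orderIsoOfSurjective F hFmono hFsurj with he
  have heF : ∀ x, e x = F x := fun x => rfl
  set ψ : ℝ → ℝ := fun x => e.symm x with hψ
  have hψF : ∀ x, ψ (F x) = x := fun x => by
    simp only [hψ]; rw [← heF]; exact e.symm_apply_apply x
  have hFψ : ∀ x, F (ψ x) = x := fun x => by
    simp only [hψ]; rw [← heF]; exact e.apply_symm_apply x
  have hψc : Continuous ψ := e.symm.continuous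
  have hψ0 : ψ 0 = 0 := by
    have := hψF 0
    rwa [hFneg 0 le_rfl] at this
  have hψnn : ∀ x, 0 ≤ x → 0 ≤ ψ x := by
    intro x hx
    by_contra hcon
    push Not at hcon
    have := hFψ x
    rw [hFneg _ hcon.le] at this
    linarith
  have hψpos : ∀ x, 0 < x → 0 < ψ x := by
    intro x hx
    rcases (hψnn x hx.le).eq_or_lt with h | h
    · have := hFψ x
      rw [← h, hFneg 0 le_rfl] at this
      linarith
    · exact h
  have hphψ : ∀ x, 0 ≤ x → ph f (ψ x) = x := fun x hx => by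
    rw [← hFpos _ (hψnn x hx)]; exact hFψ x
  have hcomm : ∀ x, 0 ≤ x → f (ψ x) = ψ (f x) := by
    intro x hx
    have h1 := H.comm (ψ x)
    rw [hphψ x hx] at h1
    have h2 := hnn _ (hψnn x hx)
    rw [← hFpos _ h2] at h1
    rw [h1, hψF]
  have HS : Small (Ici 0) (fun x => f (ψ x)) ψ :=
    { ca := H.cont.comp hψc
      cb := hψc
      ma := fun x hx => hnn _ (hψnn x hx)
      mb := fun x hx => hψnn x hx
      comm := fun x hx => hcomm _ (hψnn x hx)
      norm := fun x hx => by
        have h1 := hphψ x hx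
        have h2 := hψnn x hx
        have h3 := hnn _ h2
        have h4 : (0 : ℝ) ≤ x := hx
        rw [abs_of_nonneg h4, abs_of_nonneg h2, abs_of_nonneg h3]
        unfold ph at h1
        linarith
      na := fun x hx h0 => (hpos _ (hψpos x (lt_of_le_of_ne hx (Ne.symm h0)))).ne'
      nb := fun x hx h0 => (hψpos x (lt_of_le_of_ne hx (Ne.symm h0))).ne'
      comp := fun x hx => by
        refine (isCompact_Icc (a := -|x|) (b := |x|)).of_isClosed_subset
          (isClosed_Ici.inter (isClosed_le continuous_abs continuous_const)) ?_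
        rintro z ⟨_, hz⟩
        exact abs_le.1 hz
      posa := fun x hx h0 => hpos _ (hψpos _ (hpos _ (hψpos _ h0)))
      posb := fun x hx h0 => hψpos _ (hψpos _ h0)
      down := fun x hx y hy _ => hy }
  obtain ⟨b, hb0, hb1, hb⟩ := HS.rigid (x0 := 1) (show (0 : ℝ) ≤ 1 by norm_num) one_pos
  refine ⟨b / (1 - b), div_nonneg hb0.le (by linarith), fun x hx => ?_⟩
  rcases hx.eq_or_lt with h | h
  · rw [← h, hf0]; ring
  · have h1 : 0 < ph f x := lt_of_lt_of_le h (hphge x hx)
    have h2 := (hb _ (show ph f x ∈ Ici 0 from h1.le) h1).1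
    rw [← hFpos x hx, hψF, hFpos x hx, abs_of_pos (hpos x h)] at h2
    unfold ph at h2
    have : 0 < 1 - b := by linarith
    field_simp
    linarith

/-- Right-hand behaviour. -/
lemma Sol.right (H : Sol f) (hne : ∃ x, ph f x ≠ 0) :
    (∃ a, 0 ≤ a ∧ ∀ x, 0 ≤ x → f x = a * x) ∨
    (∃ ε > 0, ∀ x ∈ Ioo 0 ε, f x < 0 ∧ 0 < ph f x) ∨ (∃ ε > 0, ∀ x ∈ Ioo 0 ε, ph f x < 0) := by
  obtain ⟨ε, hε, h | h | h | h⟩ := H.near hne
  · exact Or.inl ⟨0, le_rfl, fun x hx => by rw [H.zero_right hε h x hx]; ring⟩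
  · exact Or.inl (H.linear_right (H.pos_right hε h))
  · exact Or.inr (Or.inl ⟨ε, hε, h⟩)
  · exact Or.inr (Or.inr ⟨ε, hε, h⟩)

lemma conj_ph (f : ℝ → ℝ) (x : ℝ) : ph (fun x => -f (-x)) x = -ph f (-x) := by
  simp only [ph]; ring

/-- Left-hand behaviour. -/
lemma Sol.left (H : Sol f) (hne : ∃ x, ph f x ≠ 0) :
    (∃ a, 0 ≤ a ∧ ∀ x, x ≤ 0 → f x = a * x) ∨
    (∃ ε > 0, ∀ x ∈ Ioo (-ε) 0, 0 < f x ∧ ph f x < 0) ∨
    (∃ ε > 0, ∀ x ∈ Ioo (-ε) 0, 0 < ph f x) := by
  obtain ⟨x, hx⟩ := hne
  have h := H.conj.right ⟨-x, by rw [conj_ph, neg_neg]; exact neg_ne_zero.2 hx⟩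
  rcases h with ⟨a, ha, h⟩ | ⟨ε, hε, h⟩ | ⟨ε, hε, h⟩
  · refine Or.inl ⟨a, ha, fun x hx => ?_⟩
    have := h (-x) (by linarith)
    simp only [neg_neg] at this
    linarith
  · refine Or.inr (Or.inl ⟨ε, hε, fun x hx => ?_⟩)
    have := h (-x) ⟨by linarith [hx.2], by linarith [hx.1]⟩
    rw [conj_ph] at this
    simp only [neg_neg] at this
    constructor <;> linarith [this.1, this.2]
  · refine Or.inr (Or.inr ⟨ε, hε, fun x hx => ?_⟩)
    have := h (-x) ⟨by linarith [hx.2], by linarith [hx.1]⟩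
    rw [conj_ph] at this
    simp only [neg_neg] at this
    linarith

/-- Excluded mixtures. -/
lemma Sol.mix1 (H : Sol f) {b : ℝ} (hb : 0 ≤ b) (hN : ∀ x, x ≤ 0 → f x = b * x)
    {ε : ℝ} (hε : 0 < ε) (h : ∀ x ∈ Ioo 0 ε, f x < 0 ∧ 0 < ph f x) : False := by
  set x := ε / 2 with hx
  have hxm : x ∈ Ioo 0 ε := ⟨by linarith, by linarith⟩
  have hmem : ∀ n, (ph f)^[n] x ∈ Ioo 0 ε := by
    intro n
    induction n with
    | zero => exact hxm
    | succ n ih =>
      rw [Function.iterate_succ_apply']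
      have := h _ ih
      refine ⟨this.2, ?_⟩
      unfold ph at *
      linarith [ih.2, this.1]
  have hanti : Antitone fun n => (ph f)^[n] x := by
    apply antitone_nat_of_succ_le
    intro n
    rw [Function.iterate_succ_apply']
    have := (h _ (hmem n)).1
    unfold ph at *
    linarith
  have hbdd : BddBelow (range fun n => (ph f)^[n] x) :=
    ⟨0, by rintro _ ⟨n, rfl⟩; exact (hmem n).1.le⟩
  have hlim := tendsto_atTop_ciInf hanti hbdd
  set L := ⨅ n, (ph f)^[n] x
  have h1 : 0 ≤ L := le_ciInf fun n => (hmem n).1.le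
  have h2 : L ≤ x := ciInf_le hbdd 0
  have h3 : ph f L = L := by
    have e1 := (H.cph.tendsto L).comp hlim
    have e2 := hlim.comp (tendsto_add_atTop_nat 1)
    refine tendsto_nhds_unique e1 (e2.congr fun n => ?_)
    change (ph f)^[n + 1] x = ph f ((ph f)^[n] x)
    rw [Function.iterate_succ_apply']
  have h4 : L = 0 := by
    by_contra hne
    have h5 := (h L ⟨lt_of_le_of_ne h1 (Ne.symm hne), lt_of_le_of_lt h2 hxm.2⟩).1
    unfold ph at h3
    linarith
  have e1 := (H.cont.tendsto L).comp hlim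
  rw [h4, H.zero] at e1
  have hle : ∀ n, (ph f)^[n] (f x) ≤ f x := by
    intro n
    induction n with
    | zero => exact le_rfl
    | succ n ih =>
      rw [Function.iterate_succ_apply']
      have h5 := (h x hxm).1
      have h6 := hN _ (ih.trans h5.le)
      have : ph f ((ph f)^[n] (f x)) = (ph f)^[n] (f x) + f ((ph f)^[n] (f x)) := rfl
      rw [this, h6]
      have : b * (ph f)^[n] (f x) ≤ 0 := mul_nonpos_of_nonneg_of_nonpos hb (ih.trans h5.le)
      linarith
  have h7 : (0 : ℝ) ≤ f x := by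
    refine le_of_tendsto e1 (Eventually.of_forall fun n => ?_)
    change f ((ph f)^[n] x) ≤ f x
    rw [H.iter]
    exact hle n
  linarith [(h x hxm).1]

lemma Sol.mix2 (H : Sol f) {b : ℝ} (hb : 0 ≤ b) (hN : ∀ x, x ≤ 0 → f x = b * x)
    {ε : ℝ} (hε : 0 < ε) (h : ∀ x ∈ Ioo 0 ε, ph f x < 0) : False := by
  have h1 := h (ε / 2) ⟨by linarith, by linarith⟩
  have h2 := H.comm (ε / 2)
  rw [hN _ h1.le] at h2
  have h3 : f (ε / 2) ≤ 0 := by unfold ph at h1; linarith
  unfold ph at h2 h1
  rw [hN _ h3] at h2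
  have h4 : 0 ≤ b * (ε / 2) := by positivity
  linarith

lemma Sol.mix3 (H : Sol f) {ε : ℝ} (hε : 0 < ε) (h : ∀ x ∈ Ioo 0 ε, f x < 0 ∧ 0 < ph f x)
    (h' : ∀ x ∈ Ioo (-ε) 0, 0 < ph f x) : False := by
  set x := ε / 2
  have hx : x ∈ Ioo 0 ε := ⟨by simp only [x]; linarith, by simp only [x]; linarith⟩
  obtain ⟨h1, h2⟩ := h x hx
  have h3 : f x ∈ Ioo (-ε) 0 := ⟨by unfold ph at h2; linarith [hx.2], h1⟩
  have h4 := h' _ h3
  have h5 : ph f x ∈ Ioo 0 ε := ⟨h2, by unfold ph; linarith [hx.2]⟩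
  have h6 := (h _ h5).1
  rw [H.comm] at h6
  linarith

/-- Type II near `0`. -/
lemma Sol.typeII (H : Sol f) {ε : ℝ} (hε : 0 < ε) (h : ∀ x ∈ Ioo 0 ε, f x < 0 ∧ 0 < ph f x)
    (h' : ∀ x ∈ Ioo (-ε) 0, 0 < f x ∧ ph f x < 0) : ∃ a, ∀ x, f x = a * x := by
  have hf0 := H.zero
  have hcase : ∀ x ∈ Ioo (-ε) ε, x ≠ 0 → (0 < x ∧ f x < 0 ∧ 0 < ph f x) ∨
      (x < 0 ∧ 0 < f x ∧ ph f x < 0) := by
    intro x hx h0
    rcases lt_or_gt_of_ne h0 with h1 | h1
    · exact Or.inr ⟨h1, h' x ⟨hx.1, h1⟩⟩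
    · exact Or.inl ⟨h1, h x ⟨h1, hx.2⟩⟩
  have hma : ∀ x ∈ Ioo (-ε) ε, f x ∈ Ioo (-ε) ε := by
    intro x hx
    by_cases h0 : x = 0
    · rw [h0, hf0]; exact ⟨by linarith, hε⟩
    · rcases hcase x hx h0 with ⟨h1, h2, h3⟩ | ⟨h1, h2, h3⟩
      · unfold ph at h3; exact ⟨by linarith [hx.2], by linarith⟩
      · unfold ph at h3; exact ⟨by linarith, by linarith [hx.1]⟩
  have hmb : ∀ x ∈ Ioo (-ε) ε, ph f x ∈ Ioo (-ε) ε := by
    intro x hx
    by_cases h0 : x = 0
    · rw [h0, H.ph0]; exact ⟨by linarith, hε⟩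
    · rcases hcase x hx h0 with ⟨h1, h2, h3⟩ | ⟨h1, h2, h3⟩
      · refine ⟨by linarith, ?_⟩
        unfold ph; linarith [hx.2]
      · refine ⟨?_, by linarith⟩
        unfold ph; linarith [hx.1]
  have HS : Small (Ioo (-ε) ε) f (ph f) :=
    { ca := H.cont
      cb := H.cph
      ma := hma
      mb := hmb
      comm := fun x _ => H.comm x
      norm := fun x hx => by
        by_cases h0 : x = 0
        · rw [h0, hf0, H.ph0]; simp
        · rcases hcase x hx h0 with ⟨h1, h2, h3⟩ | ⟨h1, h2, h3⟩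
          · rw [abs_of_pos h1, abs_of_neg h2, abs_of_pos h3]; unfold ph; ring
          · rw [abs_of_neg h1, abs_of_pos h2, abs_of_neg h3]; unfold ph; ring
      na := fun x hx h0 => by
        rcases hcase x hx h0 with ⟨h1, h2, h3⟩ | ⟨h1, h2, h3⟩
        · exact h2.ne
        · exact h2.ne'
      nb := fun x hx h0 => by
        rcases hcase x hx h0 with ⟨h1, h2, h3⟩ | ⟨h1, h2, h3⟩
        · exact h3.ne'
        · exact h3.ne
      comp := fun x hx => by
        have : {z | z ∈ Ioo (-ε) ε ∧ |z| ≤ |x|} = Icc (-|x|) |x| := by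
          ext z
          constructor
          · rintro ⟨_, hz⟩; exact abs_le.1 hz
          · intro hz
            have hxε : |x| < ε := abs_lt.2 hx
            exact ⟨⟨by linarith [hz.1], by linarith [hz.2]⟩, abs_le.2 hz⟩
        rw [this]; exact isCompact_Icc
      posa := fun x hx h0 => by
        have h1 := h x ⟨h0, hx.2⟩
        exact (h' _ ⟨(hma x hx).1, h1.1⟩).1
      posb := fun x hx h0 => by
        have h1 := h x ⟨h0, hx.2⟩
        exact (h _ ⟨h1.2, (hmb x hx).2⟩).2
      down := fun x hx y hy hyx => ⟨by linarith, by linarith [hx.2]⟩ }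
  obtain ⟨b, hb0, hb1, hb⟩ := HS.rigid (x0 := ε / 2) ⟨by linarith, by linarith⟩ (by linarith)
  refine ⟨-b, ?_⟩
  have hP : ∀ x ∈ Ioo 0 ε, f x = -b * x := by
    intro x hx
    have h1 := (hb x ⟨by linarith [hx.1], hx.2⟩ hx.1).1
    rw [abs_of_neg (h x hx).1] at h1
    linarith
  have hN : ∀ x ∈ Ioo (-(b * ε)) 0, f x = -b * x := by
    intro x hx
    have hy : -x / b ∈ Ioo 0 ε := by
      refine ⟨div_pos (by linarith [hx.2]) hb0, ?_⟩
      rw [div_lt_iff₀ hb0]; linarith [hx.1]
    have h1 := (hb _ ⟨by linarith [hy.1], hy.2⟩ hy.1).2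
    rw [hP _ hy] at h1
    have e : -b * (-x / b) = x := by field_simp
    rw [e, abs_of_neg hx.2] at h1
    have hxε : -ε < x := by nlinarith [hx.1]
    rw [abs_of_pos (h' x ⟨hxε, hx.2⟩).1] at h1
    linarith
  -- linear on a symmetric interval
  have hlin : ∀ x, |x| < b * ε → f x = -b * x := by
    intro x hx
    rw [abs_lt] at hx
    rcases lt_trichotomy x 0 with h1 | h1 | h1
    · exact hN x ⟨hx.1, h1⟩
    · rw [h1, hf0]; ring
    · exact hP x ⟨h1, by nlinarith [hx.2]⟩
  -- extension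
  by_contra hcon
  push Not at hcon
  obtain ⟨x0, hx0⟩ := hcon
  set S := {x : ℝ | f x ≠ -b * x} with hS
  set R := sInf ((fun x => |x|) '' S) with hR
  have hSn : ((fun x => |x|) '' S).Nonempty := ⟨_, x0, hx0, rfl⟩
  have hSb : BddBelow ((fun x => |x|) '' S) := ⟨0, by rintro _ ⟨x, _, rfl⟩; exact abs_nonneg x⟩
  have hR0 : b * ε ≤ R := by
    apply le_csInf hSn
    rintro _ ⟨x, hx, rfl⟩
    by_contra hlt
    push Not at hlt
    exact hx (hlin x hlt)
  have hRpos : 0 < R := lt_of_lt_of_le (by positivity) hR0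
  have hin : ∀ x, |x| < R → f x = -b * x := by
    intro x hx
    by_contra hne
    exact absurd (csInf_le hSb ⟨x, hne, rfl⟩) (not_le.2 hx)
  have hcl : ∀ x, |x| ≤ R → f x = -b * x := by
    intro x hx
    have h1 : Tendsto (fun t : ℝ => f (t * x)) (𝓝[<] 1) (𝓝 (f (1 * x))) :=
      ((H.cont.comp (continuous_id.mul continuous_const)).tendsto 1).mono_left nhdsWithin_le_nhds
    have h2 : Tendsto (fun t : ℝ => -b * (t * x)) (𝓝[<] 1) (𝓝 (-b * (1 * x))) :=
      ((continuous_const.mul (continuous_id.mul continuous_const)).tendsto 1).mono_left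
        nhdsWithin_le_nhds
    have h3 : (fun t : ℝ => f (t * x)) =ᶠ[𝓝[<] 1] fun t => -b * (t * x) := by
      filter_upwards [Ioo_mem_nhdsLT (show (0 : ℝ) < 1 by norm_num)] with t ht
      apply hin
      rw [abs_mul, abs_of_pos ht.1]
      rcases (abs_nonneg x).eq_or_lt with h4 | h4
      · rw [← h4, mul_zero]; exact hRpos
      · calc t * |x| < 1 * |x| := mul_lt_mul_of_pos_right ht.2 h4
          _ ≤ R := by linarith
    have h4 := tendsto_nhds_unique h1 (h2.congr' h3.symm)
    simpa using h4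
  -- a little further
  have hK : IsCompact {x : ℝ | |x| = R} := by
    refine (isCompact_Icc (a := -R) (b := R)).of_isClosed_subset
      (isClosed_eq continuous_abs continuous_const) ?_
    intro x hx
    exact abs_le.1 (le_of_eq hx)
  have hopen : IsOpen {x : ℝ | |f x| < R ∧ |ph f x| < R} :=
    (isOpen_lt H.cont.abs continuous_const).inter (isOpen_lt H.cph.abs continuous_const)
  have hsub : {x : ℝ | |x| = R} ⊆ {x : ℝ | |f x| < R ∧ |ph f x| < R} := by
    intro x hx
    have hx' : |x| = R := hx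
    have h1 := hcl x hx'.le
    refine ⟨?_, ?_⟩
    · rw [h1, abs_mul, hx', abs_neg, abs_of_pos hb0]; nlinarith
    · unfold ph
      rw [h1, show x + -b * x = (1 - b) * x by ring, abs_mul, hx', abs_of_pos (by linarith)]
      nlinarith
  obtain ⟨δ, hδ, hδs⟩ := hK.exists_thickening_subset_open hopen hsub
  obtain ⟨_, ⟨x, hxS, rfl⟩, hxlt⟩ := exists_lt_of_csInf_lt hSn
    (show sInf ((fun x => |x|) '' S) < R + δ by linarith)
  have hxge : R < |x| := by
    by_contra hle
    push Not at hle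
    exact hxS (hcl x hle)
  have hxpos : 0 < |x| := hRpos.trans hxge
  have hxin : x ∈ {x : ℝ | |f x| < R ∧ |ph f x| < R} := by
    apply hδs
    rw [Metric.mem_thickening_iff]
    refine ⟨R / |x| * x, ?_, ?_⟩
    · change |R / |x| * x| = R
      rw [abs_mul, abs_div, abs_abs, abs_of_pos hRpos, div_mul_cancel₀ _ hxpos.ne']
    · rw [Real.dist_eq]
      have : x - R / |x| * x = (|x| - R) / |x| * x := by field_simp
      rw [this, abs_mul, abs_div, abs_abs, div_mul_cancel₀ _ hxpos.ne', abs_of_pos (by linarith)]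
      simp only at hxlt
      linarith
  have h1 := hin _ hxin.1
  have h2 := hin _ hxin.2
  have h3 := H.comm x
  rw [h2] at h3
  unfold ph at h3
  rw [h1] at h3
  apply hxS
  linarith

/-- Type III near `0` is type III everywhere. -/
lemma Sol.globIII (H : Sol f) {ε : ℝ} (hε : 0 < ε) (h : ∀ x ∈ Ioo 0 ε, ph f x < 0)
    (h' : ∀ x ∈ Ioo (-ε) 0, 0 < ph f x) : ∀ x, x ≠ 0 → x * ph f x < 0 := by
  by_contra hcon
  push Not at hcon
  obtain ⟨x0, hx0, hx0'⟩ := hcon
  have hclosed : IsClosed {x : ℝ | ε ≤ |x| ∧ 0 ≤ x * ph f x} :=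
    (isClosed_le continuous_const continuous_abs).inter
      (isClosed_le continuous_const (continuous_id.mul H.cph))
  have hnear : ∀ x, x ≠ 0 → |x| < ε → x * ph f x < 0 := by
    intro x hx hxε
    rw [abs_lt] at hxε
    rcases lt_or_gt_of_ne hx with h1 | h1
    · exact mul_neg_of_neg_of_pos h1 (h' x ⟨hxε.1, h1⟩)
    · exact mul_neg_of_pos_of_neg h1 (h x ⟨h1, hxε.2⟩)
  have hx0ε : ε ≤ |x0| := by
    by_contra hlt
    push Not at hlt
    linarith [hnear x0 hx0 hlt]
  have hK : IsCompact ({x : ℝ | ε ≤ |x| ∧ 0 ≤ x * ph f x} ∩ Icc (-|x0|) |x0|) :=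
    isCompact_Icc.inter_left hclosed
  obtain ⟨c, hc, hmin⟩ := hK.exists_isMinOn (f := fun x => |x|)
    ⟨x0, ⟨hx0ε, hx0'⟩, abs_le.1 le_rfl⟩ continuous_abs.continuousOn
  have hcpos : 0 < |c| := lt_of_lt_of_le hε hc.1.1
  have hc0 : c ≠ 0 := abs_pos.1 hcpos
  have hin : ∀ x, x ≠ 0 → |x| < |c| → x * ph f x < 0 := by
    intro x hx hxc
    by_contra hcon
    push Not at hcon
    have h1 : ε ≤ |x| := by
      by_contra hlt
      push Not at hlt
      linarith [hnear x hx hlt]
    have h2 : |x| ≤ |x0| := hxc.le.trans (abs_le.2 hc.2)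
    have := hmin (show x ∈ _ from ⟨⟨h1, hcon⟩, abs_le.1 h2⟩)
    change |c| ≤ |x| at this
    linarith
  -- at `c` the map `φ` vanishes
  have hphc : ph f c = 0 := by
    have h1 : Tendsto (fun t : ℝ => (t * c) * ph f (t * c)) (𝓝[<] 1) (𝓝 ((1 * c) * ph f (1 * c))) := by
      refine Tendsto.mono_left (Continuous.tendsto ?_ 1) nhdsWithin_le_nhds
      have := H.cph
      fun_prop
    have h2 : (1 * c) * ph f (1 * c) ≤ 0 := by
      refine le_of_tendsto h1 ?_
      filter_upwards [Ioo_mem_nhdsLT (show (0 : ℝ) < 1 by norm_num)] with t ht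
      refine (hin (t * c) (mul_ne_zero ht.1.ne' hc0) ?_).le
      rw [abs_mul, abs_of_pos ht.1]
      nlinarith [ht.2]
    rw [one_mul] at h2
    have h3 : c * ph f c = 0 := le_antisymm h2 hc.1.2
    exact (mul_eq_zero.1 h3).resolve_left hc0
  -- normalise to a positive `C`
  obtain ⟨C, hC0, hCc, hC1, hC2⟩ : ∃ C, 0 < C ∧ C = |c| ∧ ph f C = 0 ∧ ph f (-C) = 0 := by
    refine ⟨|c|, hcpos, rfl, ?_⟩
    rcases abs_cases c with ⟨h1, _⟩ | ⟨h1, _⟩
    · rw [h1]; exact ⟨hphc, H.wsymm hphc⟩
    · rw [h1, neg_neg]; exact ⟨H.wsymm hphc, hphc⟩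
  have hp : ∀ x, 0 < x → x < C → ph f x < 0 := by
    intro x h1 h2
    have := hin x h1.ne' (by rw [abs_of_pos h1, ← hCc]; exact h2)
    by_contra hcon
    push Not at hcon
    nlinarith
  have hn : ∀ x, x < 0 → -C < x → 0 < ph f x := by
    intro x h1 h2
    have := hin x h1.ne (by rw [abs_of_neg h1, ← hCc]; linarith)
    by_contra hcon
    push Not at hcon
    nlinarith
  have hfp : ∀ x, 0 < x → x < C → f x < -x ∧ -C < f x := by
    intro x h1 h2
    have h3 := hp x h1 h2
    have h4 : f x < -x := by unfold ph at h3; linarith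
    refine ⟨h4, ?_⟩
    by_contra hcon
    push Not at hcon
    obtain ⟨y, hy, hyC⟩ := intermediate_value_Icc' h1.le H.cont.continuousOn
      (show -C ∈ Icc (f x) (f 0) by rw [H.zero]; exact ⟨hcon, by linarith⟩)
    have hy0 : 0 < y := by
      rcases hy.1.eq_or_lt with h5 | h5
      · rw [← h5, H.zero] at hyC; linarith
      · exact h5
    have hyC' : y < C := lt_of_le_of_lt hy.2 h2
    have h5 := H.comm y
    rw [hyC, hC2] at h5
    have h6 := hp y hy0 hyC'
    have h7 : -C < ph f y := by unfold ph; rw [hyC]; linarith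
    have h8 := hn _ h6 h7
    unfold ph at h8 h5 h6
    linarith
  have hfn : ∀ x, x < 0 → -C < x → -x < f x ∧ f x < C := by
    intro x h1 h2
    have h3 := hn x h1 h2
    have h4 : -x < f x := by unfold ph at h3; linarith
    refine ⟨h4, ?_⟩
    by_contra hcon
    push Not at hcon
    obtain ⟨y, hy, hyC⟩ := intermediate_value_Icc' h1.le H.cont.continuousOn
      (show C ∈ Icc (f 0) (f x) by rw [H.zero]; exact ⟨by linarith, hcon⟩)
    have hy0 : y < 0 := by
      rcases hy.2.lt_or_eq with h5 | h5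
      · exact h5
      · rw [h5, H.zero] at hyC; linarith
    have hyC' : -C < y := lt_of_lt_of_le h2 hy.1
    have h5 := H.comm y
    rw [hyC, hC1] at h5
    have h6 := hn y hy0 hyC'
    have h7 : ph f y < C := by unfold ph; rw [hyC]; linarith
    have h8 := hp _ h6 h7
    unfold ph at h8 h5 h6
    linarith
  set g : ℝ → ℝ := fun x => f (f x) with hg
  have hgp : ∀ x, 0 < x → x < C → x < g x ∧ g x < C := by
    intro x h1 h2
    obtain ⟨h3, h4⟩ := hfp x h1 h2
    obtain ⟨h5, h6⟩ := hfn (f x) (by linarith) h4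
    exact ⟨by simp only [hg]; linarith, h6⟩
  have hgn : ∀ x, x < 0 → -C < x → g x < x ∧ -C < g x := by
    intro x h1 h2
    obtain ⟨h3, h4⟩ := hfn x h1 h2
    obtain ⟨h5, h6⟩ := hfp (f x) (by linarith) h4
    exact ⟨by simp only [hg]; linarith, h6⟩
  have hgc : Continuous g := H.cont.comp H.cont
  set x := C / 2 with hx
  have hxm : ∀ n, 0 < g^[n] x ∧ g^[n] x < C := by
    intro n
    induction n with
    | zero => exact ⟨by simp only [Function.iterate_zero_apply, hx]; linarith,
        by simp only [Function.iterate_zero_apply, hx]; linarith⟩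
    | succ n ih =>
      rw [Function.iterate_succ_apply']
      have := hgp _ ih.1 ih.2
      exact ⟨by linarith [ih.1], this.2⟩
  have hmono : Monotone fun n => g^[n] x := by
    apply monotone_nat_of_le_succ
    intro n
    rw [Function.iterate_succ_apply']
    exact (hgp _ (hxm n).1 (hxm n).2).1.le
  have hbdd : BddAbove (range fun n => g^[n] x) := ⟨C, by rintro _ ⟨n, rfl⟩; exact (hxm n).2.le⟩
  have hlim := tendsto_atTop_ciSup hmono hbdd
  set L := ⨆ n, g^[n] x
  have h1 : L ≤ C := ciSup_le fun n => (hxm n).2.le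
  have h2 : x ≤ L := le_ciSup hbdd 0
  have h3 : g L = L := by
    have e1 := (hgc.tendsto L).comp hlim
    have e2 := hlim.comp (tendsto_add_atTop_nat 1)
    refine tendsto_nhds_unique e1 (e2.congr fun n => ?_)
    change g^[n + 1] x = g (g^[n] x)
    rw [Function.iterate_succ_apply']
  have h4 : L = C := by
    by_contra hne
    have := (hgp L (by linarith) (lt_of_le_of_ne h1 hne)).1
    linarith
  have h5 := (H.cph.tendsto L).comp hlim
  rw [h4, hC1] at h5
  have hx' := hxm 0
  simp only [Function.iterate_zero_apply] at hx'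
  have hy1 := hp x hx'.1 hx'.2
  have hy2 : -C < ph f x := by
    have := (hfp x hx'.1 hx'.2).2
    unfold ph; linarith [hx'.1]
  have hcommg : ∀ n, ph f (g^[n] x) = g^[n] (ph f x) := by
    intro n
    induction n with
    | zero => rfl
    | succ n ih =>
      rw [Function.iterate_succ_apply', Function.iterate_succ_apply', ← ih]
      simp only [hg]
      rw [H.comm, H.comm]
  have hle : ∀ n, g^[n] (ph f x) ≤ ph f x ∧ -C < g^[n] (ph f x) := by
    intro n
    induction n with
    | zero => exact ⟨le_rfl, hy2⟩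
    | succ n ih =>
      rw [Function.iterate_succ_apply']
      have := hgn _ (lt_of_le_of_lt ih.1 hy1) ih.2
      exact ⟨this.1.le.trans ih.1, this.2⟩
  have h6 : (0 : ℝ) ≤ ph f x := by
    refine le_of_tendsto h5 (Eventually.of_forall fun n => ?_)
    change ph f (g^[n] x) ≤ ph f x
    rw [hcommg]
    exact (hle n).1
  linarith

/-- Type III. -/
lemma Sol.typeIII (H : Sol f) (h : ∀ x, x ≠ 0 → x * ph f x < 0) : ∃ a, ∀ x, f x = a * x := by
  have hf0 := H.zero
  have hcase : ∀ x, x ≠ 0 → (0 < x ∧ ph f x < 0 ∧ f x < 0) ∨ (x < 0 ∧ 0 < ph f x ∧ 0 < f x) := by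
    intro x h0
    have h1 := h x h0
    rcases lt_or_gt_of_ne h0 with h2 | h2
    · right
      have h3 : 0 < ph f x := by
        by_contra hcon
        push Not at hcon
        nlinarith
      refine ⟨h2, h3, ?_⟩
      unfold ph at h3; linarith
    · left
      have h3 : ph f x < 0 := by
        by_contra hcon
        push Not at hcon
        nlinarith
      refine ⟨h2, h3, ?_⟩
      unfold ph at h3; linarith
  have hfle : ∀ x, 0 ≤ x → f x ≤ -x := by
    intro x hx
    rcases hx.eq_or_lt with h1 | h1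
    · rw [← h1, hf0]; simp
    · rcases hcase x h1.ne' with ⟨_, h2, _⟩ | ⟨h2, _⟩
      · unfold ph at h2; linarith
      · linarith
  have hfge : ∀ x, x ≤ 0 → -x ≤ f x := by
    intro x hx
    rcases hx.lt_or_eq with h1 | h1
    · rcases hcase x h1.ne with ⟨h2, _⟩ | ⟨_, h2, _⟩
      · linarith
      · unfold ph at h2; linarith
    · rw [h1, hf0]; simp
  have hsurj : ∀ x, ∃ y, f y = x := by
    intro x
    rcases le_or_gt x 0 with hx | hx
    · obtain ⟨y, _, hy⟩ := intermediate_value_Icc' (show 0 ≤ -x by linarith) H.cont.continuousOn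
        (show x ∈ Icc (f (-x)) (f 0) by
          rw [hf0]; exact ⟨by linarith [hfle (-x) (by linarith)], hx⟩)
      exact ⟨y, hy⟩
    · obtain ⟨y, _, hy⟩ := intermediate_value_Icc' (show -x ≤ 0 by linarith) H.cont.continuousOn
        (show x ∈ Icc (f 0) (f (-x)) by
          rw [hf0]; exact ⟨hx.le, by linarith [hfge (-x) (by linarith)]⟩)
      exact ⟨y, hy⟩
  have hnorm : ∀ x, |f x| = |x| + |ph f x| := by
    intro x
    by_cases h0 : x = 0
    · rw [h0, hf0, H.ph0]; simp
    · rcases hcase x h0 with ⟨h1, h2, h3⟩ | ⟨h1, h2, h3⟩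
      · rw [abs_of_pos h1, abs_of_neg h2, abs_of_neg h3]; unfold ph; ring
      · rw [abs_of_neg h1, abs_of_pos h2, abs_of_pos h3]; unfold ph; ring
  have hnz : ∀ x, x ≠ 0 → ph f x ≠ 0 := by
    intro x h0 h1
    have := h x h0
    rw [h1, mul_zero] at this
    linarith
  have HB : Big univ (ph f) f :=
    { closed := isClosed_univ
      ca := H.cph
      ma := fun x _ => mem_univ _
      mb := fun x _ => mem_univ _
      comm := fun x _ => (H.comm x).symm
      surj := fun x _ => by obtain ⟨y, hy⟩ := hsurj x; exact ⟨y, mem_univ _, hy⟩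
      norm := fun x _ => hnorm x
      a0 := H.ph0
      nz := fun x _ h0 => hnz x h0 }
  have hinj : Function.Injective f := by
    intro x y hxy
    have h1 := HB.inj (mem_univ x) (mem_univ y) hxy
    rcases abs_eq_abs.1 h1 with h2 | h2
    · exact h2
    · by_cases h0 : x = 0
      · rw [h0] at h2 ⊢
        linarith
      · exfalso
        rcases hcase x h0 with ⟨h3, _, h4⟩ | ⟨h3, _, h4⟩
        · have := hfge y (by linarith)
          rw [← hxy] at this
          linarith
        · have := hfle y (by linarith)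
          rw [← hxy] at this
          linarith
  -- `-f` is an increasing homeomorphism
  have hmono : StrictMono fun x => -f x := by
    have hc : Continuous fun x => -f x := H.cont.neg
    have hi : Function.Injective fun x => -f x := fun x y hxy => hinj (neg_inj.1 hxy)
    rcases hc.strictMono_of_inj hi with h1 | h1
    · exact h1
    · exfalso
      have h2 := h1 (show (0 : ℝ) < 1 by norm_num)
      simp only [hf0, neg_zero] at h2
      have := hfle 1 (by norm_num)
      linarith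
  have hs : Function.Surjective fun x => -f x := by
    intro x
    obtain ⟨y, hy⟩ := hsurj (-x)
    exact ⟨y, by simp only [hy, neg_neg]⟩
  set e := StrictMono.orderIsoOfSurjective (fun x => -f x) hmono hs with he
  have hee : ∀ x, e x = -f x := fun x => rfl
  set F : ℝ → ℝ := fun x => e.symm (-x) with hF
  have hFc : Continuous F := e.symm.continuous.comp continuous_neg
  have hfF : ∀ x, f (F x) = x := by
    intro x
    have h1 := e.apply_symm_apply (-x)
    rw [hee] at h1
    simp only [hF]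
    linarith
  have hFf : ∀ x, F (f x) = x := by
    intro x
    simp only [hF]
    rw [← hee]
    exact e.symm_apply_apply x
  have hFcase : ∀ x, x ≠ 0 → (0 < x ∧ F x < 0 ∧ 0 < ph f (F x)) ∨
      (x < 0 ∧ 0 < F x ∧ ph f (F x) < 0) := by
    intro x h0
    have hF0 : F x ≠ 0 := by
      intro h1
      have h2 := hfF x
      rw [h1, hf0] at h2
      exact h0 h2.symm
    rcases hcase (F x) hF0 with ⟨h1, h2, h3⟩ | ⟨h1, h2, h3⟩
    · rw [hfF] at h3
      exact Or.inr ⟨h3, h1, h2⟩
    · rw [hfF] at h3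
      exact Or.inl ⟨h3, h1, h2⟩
  have hF0 : F 0 = 0 := by
    have := hFf 0
    rwa [hf0] at this
  have hcomm : ∀ x, F (ph f x) = ph f (F x) := by
    intro x
    have h1 := H.comm (F x)
    rw [hfF] at h1
    rw [← h1, hFf]
  have HS : Small univ F (fun x => ph f (F x)) :=
    { ca := hFc
      cb := H.cph.comp hFc
      ma := fun x _ => mem_univ _
      mb := fun x _ => mem_univ _
      comm := fun x _ => hcomm _
      norm := fun x _ => by
        have := hnorm (F x)
        rwa [hfF] at this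
      na := fun x _ h0 => by
        rcases hFcase x h0 with ⟨_, h1, _⟩ | ⟨_, h1, _⟩
        · exact h1.ne
        · exact h1.ne'
      nb := fun x _ h0 => by
        rcases hFcase x h0 with ⟨_, _, h1⟩ | ⟨_, _, h1⟩
        · exact h1.ne'
        · exact h1.ne
      comp := fun x _ => by
        refine (isCompact_Icc (a := -|x|) (b := |x|)).of_isClosed_subset
          (isClosed_univ.inter (isClosed_le continuous_abs continuous_const)) ?_
        rintro z ⟨_, hz⟩
        exact abs_le.1 hz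
      posa := fun x _ h0 => by
        rcases hFcase x h0.ne' with ⟨_, h1, _⟩ | ⟨h1, _⟩
        · rcases hFcase (F x) h1.ne with ⟨h2, _⟩ | ⟨_, h2, _⟩
          · linarith
          · exact h2
        · linarith
      posb := fun x _ h0 => by
        rcases hFcase x h0.ne' with ⟨_, _, h1⟩ | ⟨h1, _⟩
        · rcases hFcase _ h1.ne' with ⟨_, _, h2⟩ | ⟨h2, _⟩
          · exact h2
          · linarith
        · linarith
      down := fun x _ y _ _ => mem_univ _ }
  obtain ⟨b, hb0, hb1, hb⟩ := HS.rigid (mem_univ (1 : ℝ)) one_pos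
  have hP : ∀ x, 0 < x → F x = -b * x := by
    intro x hx
    have h1 := (hb x (mem_univ _) hx).1
    rcases hFcase x hx.ne' with ⟨_, h2, _⟩ | ⟨h2, _⟩
    · rw [abs_of_neg h2] at h1; linarith
    · linarith
  have hN : ∀ x, x < 0 → F x = -b * x := by
    intro x hx
    have hy : 0 < -x / b := div_pos (by linarith) hb0
    have h1 := (hb _ (mem_univ _) hy).2
    rw [hP _ hy] at h1
    have e1 : -b * (-x / b) = x := by field_simp
    rw [e1, abs_of_neg hx] at h1
    rcases hFcase x hx.ne with ⟨h2, _⟩ | ⟨_, h2, _⟩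
    · linarith
    · rw [abs_of_pos h2] at h1; linarith
  refine ⟨-1 / b, fun x => ?_⟩
  have h1 : F (f x) = -b * f x := by
    rcases lt_trichotomy (f x) 0 with h2 | h2 | h2
    · exact hN _ h2
    · rw [h2, hF0]; ring
    · exact hP _ h2
  rw [hFf] at h1
  rw [div_mul_eq_mul_div, eq_div_iff hb0.ne']
  linarith

/-- All continuous solutions. -/
theorem Sol.classify (H : Sol f) : (∃ a, ∀ x, f x = a * x) ∨
    ∃ a b, 0 ≤ a ∧ 0 ≤ b ∧ (∀ x, 0 ≤ x → f x = a * x) ∧ ∀ x, x ≤ 0 → f x = b * x := by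
  by_cases hne : ∃ x, ph f x ≠ 0
  · have hl := H.left hne
    have hr := H.right hne
    obtain ⟨x1, hx1⟩ := hne
    have hflip : ∀ {ε : ℝ}, (∀ x ∈ Ioo (-ε) 0, 0 < f x ∧ ph f x < 0) →
        ∀ x ∈ Ioo 0 ε, (-f (-x)) < 0 ∧ 0 < ph (fun x => -f (-x)) x := by
      intro ε h x hx
      have := h (-x) ⟨by linarith [hx.2], by linarith [hx.1]⟩
      rw [conj_ph]
      constructor <;> linarith [this.1, this.2]
    have hflip2 : ∀ {ε : ℝ}, (∀ x ∈ Ioo (-ε) 0, 0 < ph f x) →
        ∀ x ∈ Ioo 0 ε, ph (fun x => -f (-x)) x < 0 := by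
      intro ε h x hx
      have := h (-x) ⟨by linarith [hx.2], by linarith [hx.1]⟩
      rw [conj_ph]
      linarith
    rcases hr with ⟨a, ha, hr⟩ | ⟨ε, hε, hr⟩ | ⟨ε, hε, hr⟩
    · rcases hl with ⟨b, hb, hl⟩ | ⟨δ, hδ, hl⟩ | ⟨δ, hδ, hl⟩
      · exact Or.inr ⟨a, b, ha, hb, hr, hl⟩
      · exact (H.conj.mix1 ha (fun x hx => by
          rw [hr (-x) (by linarith)]; ring) hδ (hflip hl)).elim
      · exact (H.conj.mix2 ha (fun x hx => by
          rw [hr (-x) (by linarith)]; ring) hδ (hflip2 hl)).elim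
    · rcases hl with ⟨b, hb, hl⟩ | ⟨δ, hδ, hl⟩ | ⟨δ, hδ, hl⟩
      · exact (H.mix1 hb hl hε hr).elim
      · left
        refine H.typeII (lt_min hε hδ) (fun x hx => hr x ⟨hx.1, lt_of_lt_of_le hx.2 (min_le_left _ _)⟩)
          (fun x hx => hl x ⟨?_, hx.2⟩)
        linarith [hx.1, min_le_right ε δ]
      · refine (H.mix3 (lt_min hε hδ) (fun x hx => hr x ⟨hx.1, lt_of_lt_of_le hx.2 (min_le_left _ _)⟩)
          (fun x hx => hl x ⟨?_, hx.2⟩)).elim
        linarith [hx.1, min_le_right ε δ]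
    · rcases hl with ⟨b, hb, hl⟩ | ⟨δ, hδ, hl⟩ | ⟨δ, hδ, hl⟩
      · exact (H.mix2 hb hl hε hr).elim
      · refine (H.conj.mix3 (lt_min hε hδ) (fun x hx => hflip hl x
          ⟨hx.1, lt_of_lt_of_le hx.2 (min_le_right _ _)⟩) (fun x hx => ?_)).elim
        rw [conj_ph]
        have := hr (-x) ⟨by linarith [hx.2], by linarith [hx.1, min_le_left ε δ]⟩
        linarith
      · left
        refine H.typeIII (H.globIII (lt_min hε hδ)
          (fun x hx => hr x ⟨hx.1, lt_of_lt_of_le hx.2 (min_le_left _ _)⟩)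
          (fun x hx => hl x ⟨?_, hx.2⟩))
        linarith [hx.1, min_le_right ε δ]
  · push Not at hne
    left
    refine ⟨-1, fun x => ?_⟩
    have := hne x
    unfold ph at this
    linarith

end Pool.Agent.Q132.FEq
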