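import Pool.Agent.Q132.FEq.Small
import Pool.Agent.Q132.FEq.Big

open Set Filter Topology

namespace Pool.Agent.Q132.FEq

structure Sol (f : ℝ → ℝ) : Prop where
  cont : Continuous f
  eqn : ∀ x, f (x + f x) = f x + f (f x)

variable {f : ℝ → ℝ}

lemma Sol.zero (H : Sol f) : f 0 = 0 := by
  have := H.eqn 0
  rw [zero_add] at this
  linarith

lemma Sol.conj (H : Sol f) : Sol fun x => -f (-x) where
  cont := (H.cont.comp continuous_neg).neg
  eqn := fun x => by
    have := H.eqn (-x)
    have e : -(x + -f (-x)) = -x + f (-x) := by ring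
    rw [e, this, neg_neg]
    ring

/-- `φ = id + f`. -/
def ph (f : ℝ → ℝ) (x : ℝ) : ℝ := x + f x

lemma Sol.cph (H : Sol f) : Continuous (ph f) := continuous_id.add H.cont

lemma Sol.comm (H : Sol f) (x : ℝ) : f (ph f x) = ph f (f x) := H.eqn x

lemma Sol.ph0 (H : Sol f) : ph f 0 = 0 := by unfold ph; rw [H.zero]; ring

lemma Sol.iter (H : Sol f) (n : ℕ) (x : ℝ) : f ((ph f)^[n] x) = (ph f)^[n] (f x) := by
  induction n with
  | zero => rfl
  | succ n ih =>
    rw [Function.iterate_succ_apply', Function.iterate_succ_apply', H.comm, ih]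

/-- Zeros of `φ` are symmetric. -/
lemma Sol.wsymm (H : Sol f) {w : ℝ} (h : ph f w = 0) : ph f (-w) = 0 := by
  have h1 := H.comm w
  rw [h, H.zero] at h1
  have h2 : f w = -w := by unfold ph at h; linarith
  rw [h2] at h1
  exact h1.symm

lemma Sol.step (H : Sol f) {x y : ℝ} (h1 : ph f x = y) (h2 : ph f y = 0) :
    ph f (x - 2 * y) = y := by
  have e1 := H.comm x
  rw [h1] at e1
  have e2 : f y = -y := by unfold ph at h2; linarith
  have e3 : f x = y - x := by unfold ph at h1; linarith
  rw [e2, e3] at e1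
  have e4 : f (y - x) = x - 2 * y := by unfold ph at e1; linarith
  have e5 := H.comm (y - x)
  rw [e4] at e5
  have e6 : ph f (y - x) = -y := by unfold ph; rw [e4]; ring
  rw [e6] at e5
  have e7 := H.wsymm h2
  unfold ph at e7
  rw [← e5]
  linarith

lemma Sol.steps (H : Sol f) {x y : ℝ} (h1 : ph f x = y) (h2 : ph f y = 0) (k : ℕ) :
    ph f (x - 2 * k * y) = y := by
  induction k with
  | zero => simpa using h1
  | succ k ih =>
    have h3 := H.step ih h2
    have e : x - 2 * ((k + 1 : ℕ) : ℝ) * y = x - 2 * k * y - 2 * y := by push_cast; ring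
    rw [e]
    exact h3

lemma Sol.accum_aux (H : Sol f) (hacc : ∀ ε > 0, ∃ w, 0 < |w| ∧ |w| < ε ∧ ph f w = 0) (b : ℝ)
    (hb : 0 < ph f b) : False := by
  have hacc' : ∀ ε > 0, ∃ w, 0 < w ∧ w < ε ∧ ph f w = 0 := by
    intro ε hε
    obtain ⟨w, h1, h2, h3⟩ := hacc ε hε
    rcases abs_cases w with ⟨h, _⟩ | ⟨h, _⟩
    · exact ⟨w, by linarith, by linarith, h3⟩
    · exact ⟨-w, by linarith, by linarith, H.wsymm h3⟩
  have key : ph f (-|b|) = 0 := by
    by_contra hne
    have hpos : 0 < |ph f (-|b|)| := abs_pos.2 hne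
    obtain ⟨δ, hδ, hc⟩ := Metric.continuousAt_iff.1 (H.cph.continuousAt (x := -|b|))
      (|ph f (-|b|)| / 2) (by linarith)
    obtain ⟨w, hw0, hw1, hw2⟩ := hacc' (min (ph f b) (min (δ / 2) (|ph f (-|b|)| / 2)))
      (by positivity)
    have hwb : w < ph f b := lt_of_lt_of_le hw1 (min_le_left _ _)
    have hwδ : w < δ / 2 := lt_of_lt_of_le hw1 ((min_le_right _ _).trans (min_le_left _ _))
    have hwφ : w < |ph f (-|b|)| / 2 :=
      lt_of_lt_of_le hw1 ((min_le_right _ _).trans (min_le_right _ _))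
    obtain ⟨x, hx, hxw⟩ := intermediate_value_uIcc (a := 0) (b := b) H.cph.continuousOn
      (show w ∈ uIcc (ph f 0) (ph f b) by
        rw [H.ph0, uIcc_of_le hb.le]; exact ⟨hw0.le, hwb.le⟩)
    have hxb : -|b| ≤ x := by
      have h1 := (mem_uIcc.1 hx)
      rcases h1 with h1 | h1
      · linarith [abs_nonneg b]
      · linarith [neg_abs_le b]
    set k := ⌊(x + |b|) / (2 * w)⌋₊ with hk
    have hk1 : (k : ℝ) ≤ (x + |b|) / (2 * w) := Nat.floor_le (div_nonneg (by linarith) (by linarith))
    have hk2 : (x + |b|) / (2 * w) < k + 1 := Nat.lt_floor_add_one _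
    rw [le_div_iff₀ (by linarith)] at hk1
    rw [div_lt_iff₀ (by linarith)] at hk2
    have hs := H.steps hxw hw2 k
    have hd : dist (x - 2 * k * w) (-|b|) < δ := by
      rw [Real.dist_eq, abs_lt]; constructor <;> nlinarith
    have h2 := hc hd
    rw [hs, Real.dist_eq] at h2
    have h3 : |ph f (-|b|)| ≤ |w - ph f (-|b|)| + |w| := by
      have := abs_sub_abs_le_abs_sub (ph f (-|b|)) w
      rw [abs_sub_comm] at this
      linarith
    rw [abs_of_pos hw0] at h3
    linarith
  have key2 : ph f b = 0 := by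
    rcases abs_cases b with ⟨h, _⟩ | ⟨h, _⟩
    · rw [h] at key
      have := H.wsymm key
      rwa [neg_neg] at this
    · rw [h, neg_neg] at key
      exact key
  linarith

/-- If `f ≠ -id` the zeros of `φ` do not accumulate at `0`. -/
lemma Sol.accum (H : Sol f) (hne : ∃ x, ph f x ≠ 0) :
    ∃ ε > 0, ∀ w, 0 < |w| → |w| < ε → ph f w ≠ 0 := by
  by_contra hcon
  push Not at hcon
  obtain ⟨b, hb⟩ := hne
  rcases lt_or_gt_of_ne hb with hb | hb
  · have hconj : ∀ x, ph (fun x => -f (-x)) x = -ph f (-x) := by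
      intro x; simp only [ph]; ring
    refine H.conj.accum_aux (fun ε hε => ?_) (-b) ?_
    · obtain ⟨w, h1, h2, h3⟩ := hcon ε hε
      refine ⟨w, h1, h2, ?_⟩
      rw [hconj, H.wsymm h3, neg_zero]
    · rw [hconj, neg_neg]; linarith
  · exact H.accum_aux hcon b hb

/-- A bounded interval between two zeros on which `f > 0` produces a zero of `φ`. -/
lemma Sol.gap (H : Sol f) {a c : ℝ} (hac : a < c) (ha : f a = 0) (hc : f c = 0)
    (hpos : ∀ x ∈ Ioo a c, 0 < f x) : ∃ w, 0 < w ∧ w < c - a ∧ ph f w = 0 := by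
  have hpa : ph f a = a := by unfold ph; rw [ha]; ring
  have hpc : ph f c = c := by unfold ph; rw [hc]; ring
  by_cases hov : ∃ t ∈ Ioo a c, c ≤ ph f t
  · obtain ⟨t, ht, hct⟩ := hov
    obtain ⟨t', ht', hte⟩ := intermediate_value_Icc ht.1.le H.cph.continuousOn
      (show c ∈ Icc (ph f a) (ph f t) by rw [hpa]; exact ⟨hac.le, hct⟩)
    have hne : a ≠ t' := by
      rintro rfl
      rw [hpa] at hte
      linarith
    have h1 : a < t' := lt_of_le_of_ne ht'.1 hne
    have h2 : t' < c := lt_of_le_of_lt ht'.2 ht.2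
    refine ⟨c - t', by linarith, by linarith, ?_⟩
    have h3 := H.comm t'
    rw [hte, hc] at h3
    have h4 : f t' = c - t' := by unfold ph at hte; linarith
    rw [h4] at h3
    exact h3.symm
  · exfalso
    push Not at hov
    -- forward orbits tend to `c`
    have hfor : ∀ t ∈ Ioo a c, ∀ n, (ph f)^[n] t ∈ Ioo a c := by
      intro t ht n
      induction n with
      | zero => exact ht
      | succ n ih =>
        rw [Function.iterate_succ_apply']
        refine ⟨?_, hov _ ih⟩
        have := hpos _ ih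
        unfold ph at *
        linarith [ih.1]
    have hlimc : ∀ t ∈ Ioo a c, Tendsto (fun n => (ph f)^[n] (f t)) atTop (𝓝 0) := by
      intro t ht
      have hmono : Monotone fun n => (ph f)^[n] t := by
        apply monotone_nat_of_le_succ
        intro n
        rw [Function.iterate_succ_apply']
        have := hpos _ (hfor t ht n)
        unfold ph at *
        linarith
      have hbdd : BddAbove (range fun n => (ph f)^[n] t) :=
        ⟨c, by rintro _ ⟨n, rfl⟩; exact (hfor t ht n).2.le⟩
      have hlim := tendsto_atTop_ciSup hmono hbdd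
      set L := ⨆ n, (ph f)^[n] t
      have h1 : L ≤ c := ciSup_le fun n => (hfor t ht n).2.le
      have h2 : t ≤ L := le_ciSup hbdd 0
      have h3 : ph f L = L := by
        have e1 := (H.cph.tendsto L).comp hlim
        have e2 := hlim.comp (tendsto_add_atTop_nat 1)
        refine tendsto_nhds_unique e1 (e2.congr fun n => ?_)
        change (ph f)^[n + 1] t = ph f ((ph f)^[n] t)
        rw [Function.iterate_succ_apply']
      have h4 : L = c := by
        by_contra hne
        have h5 := hpos L ⟨lt_of_lt_of_le ht.1 h2, lt_of_le_of_ne h1 hne⟩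
        unfold ph at h3
        linarith
      have e1 := (H.cont.tendsto L).comp hlim
      rw [h4, hc] at e1
      refine e1.congr fun n => ?_
      exact H.iter n t
    -- backward orbits tend to `a`
    have hback : ∀ t ∈ Ioo a c, ∃ t' ∈ Ioo a c, t' < t ∧ ph f t' = t := by
      intro t ht
      have h1 := hpos t ht
      obtain ⟨t', ht', hte⟩ := intermediate_value_Icc ht.1.le H.cph.continuousOn
        (show t ∈ Icc (ph f a) (ph f t) by
          rw [hpa]; exact ⟨ht.1.le, by unfold ph; linarith⟩)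
      have hne : a ≠ t' := by
        rintro rfl
        rw [hpa] at hte
        linarith [ht.1]
      have hne' : t' ≠ t := by
        rintro rfl
        unfold ph at hte
        linarith
      have h2 : a < t' := lt_of_le_of_ne ht'.1 hne
      have h3 : t' < t := lt_of_le_of_ne ht'.2 hne'
      exact ⟨t', ⟨h2, h3.trans ht.2⟩, h3, hte⟩
    choose! g hg1 hg2 hg3 using hback
    set t0 := (a + c) / 2 with ht0
    have ht0m : t0 ∈ Ioo a c := ⟨by rw [ht0]; linarith, by rw [ht0]; linarith⟩
    set T : ℕ → ℝ := fun k => g^[k] t0 with hT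
    have hTm : ∀ k, T k ∈ Ioo a c := by
      intro k
      induction k with
      | zero => exact ht0m
      | succ k ih => simp only [hT, Function.iterate_succ_apply']; exact hg1 _ ih
    have hTs : ∀ k, T (k + 1) = g (T k) := fun k => by
      simp only [hT, Function.iterate_succ_apply']
    have hTφ : ∀ k, ph f (T (k + 1)) = T k := fun k => by rw [hTs]; exact hg3 _ (hTm k)
    have hanti : Antitone T := by
      apply antitone_nat_of_succ_le
      intro k
      rw [hTs]
      exact (hg2 _ (hTm k)).le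
    have hbdd : BddBelow (range T) := ⟨a, by rintro _ ⟨k, rfl⟩; exact (hTm k).1.le⟩
    have hlim := tendsto_atTop_ciInf hanti hbdd
    set ℓ := ⨅ k, T k
    have hℓ1 : a ≤ ℓ := le_ciInf fun k => (hTm k).1.le
    have hℓ2 : ℓ ≤ t0 := ciInf_le hbdd 0
    have hℓφ : ph f ℓ = ℓ := by
      have e1 := (H.cph.tendsto ℓ).comp (hlim.comp (tendsto_add_atTop_nat 1))
      refine tendsto_nhds_unique e1 (hlim.congr fun n => ?_)
      exact (hTφ n).symm
    have hℓa : ℓ = a := by
      by_contra hne
      have h5 := hpos ℓ ⟨lt_of_le_of_ne hℓ1 (Ne.symm hne), lt_of_le_of_lt hℓ2 ht0m.2⟩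
      unfold ph at hℓφ
      linarith
    have hs : Tendsto (fun k => f (T k)) atTop (𝓝 0) := by
      have e1 := (H.cont.tendsto ℓ).comp hlim
      rwa [hℓa, ha] at e1
    obtain ⟨k, hk⟩ : ∃ k, f (T (k + 1)) < f (T k) := by
      by_contra hcon
      push Not at hcon
      have hm : Monotone fun k => f (T k) := monotone_nat_of_le_succ hcon
      have h1 : f (T 0) ≤ 0 := hm.ge_of_tendsto hs 0
      have h2 := hpos _ (hTm 0)
      linarith
    set σ := f (T (k + 1)) with hσ
    have hfσ : 0 < f σ := by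
      have h1 := H.comm (T (k + 1))
      rw [hTφ k, ← hσ] at h1
      unfold ph at h1
      linarith
    have hσpos : 0 < σ := hpos _ (hTm (k + 1))
    -- on the image of the interval `f` is positive
    have hG : IsPreconnected (f '' Ioo a c) := isPreconnected_Ioo.image f H.cont.continuousOn
    have hGpos : ∀ s ∈ f '' Ioo a c, 0 < f s := by
      intro s hsG
      by_contra hcon
      push Not at hcon
      obtain ⟨s', hs'G, hs'⟩ := hG.intermediate_value hsG
        (show σ ∈ f '' Ioo a c from ⟨_, hTm (k + 1), rfl⟩) H.cont.continuousOn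
        (show (0 : ℝ) ∈ Icc (f s) (f σ) from ⟨hcon, hfσ.le⟩)
      obtain ⟨t, ht, rfl⟩ := hs'G
      have hfix : ph f (f t) = f t := by unfold ph; rw [hs']; ring
      have h1 := hlimc t ht
      have h2 : ∀ n, (ph f)^[n] (f t) = f t := fun n => Function.iterate_fixed hfix n
      simp only [h2] at h1
      have h3 := tendsto_nhds_unique h1 tendsto_const_nhds
      have h4 := hpos t ht
      linarith
    have hmem : ∀ n, (ph f)^[n] σ ∈ f '' Ioo a c := by
      intro n
      rw [hσ, ← H.iter]
      exact ⟨_, hfor _ (hTm (k + 1)) n, rfl⟩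
    have hm : Monotone fun n => (ph f)^[n] σ := by
      apply monotone_nat_of_le_succ
      intro n
      rw [Function.iterate_succ_apply']
      have := hGpos _ (hmem n)
      unfold ph at *
      linarith
    have h1 := hm.ge_of_tendsto (hlimc _ (hTm (k + 1))) 0
    simp only [Function.iterate_zero_apply] at h1
    linarith

lemma sign_const {S : Set ℝ} (hS : IsPreconnected S) (hf : Continuous f)
    (hne : ∀ x ∈ S, f x ≠ 0) {x : ℝ} (hx : x ∈ S) (hx0 : 0 < f x) : ∀ y ∈ S, 0 < f y := by
  intro y hy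
  by_contra hcon
  push Not at hcon
  obtain ⟨z, hz, hz0⟩ := hS.intermediate_value hy hx hf.continuousOn
    (show (0 : ℝ) ∈ Icc (f y) (f x) from ⟨hcon, hx0.le⟩)
  exact hne z hz hz0

lemma sign_const' {S : Set ℝ} (hS : IsPreconnected S) (hf : Continuous f)
    (hne : ∀ x ∈ S, f x ≠ 0) {x : ℝ} (hx : x ∈ S) (hx0 : f x < 0) : ∀ y ∈ S, f y < 0 := by
  intro y hy
  have := sign_const (f := fun x => -f x) hS hf.neg (fun x hx => neg_ne_zero.2 (hne x hx)) hx
    (by linarith) y hy
  linarith

/-- The behaviour on the right of `0`. -/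
lemma Sol.near (H : Sol f) (hne : ∃ x, ph f x ≠ 0) :
    ∃ ε > 0, (∀ x ∈ Ioo 0 ε, f x = 0) ∨ (∀ x ∈ Ioo 0 ε, 0 < f x) ∨
      (∀ x ∈ Ioo 0 ε, f x < 0 ∧ 0 < ph f x) ∨ (∀ x ∈ Ioo 0 ε, ph f x < 0) := by
  obtain ⟨ε, hε, hW⟩ := H.accum hne
  by_cases hz : ∃ c ∈ Ioo 0 ε, f c = 0
  · obtain ⟨c, hc, hfc⟩ := hz
    refine ⟨c, hc.1, Or.inl ?_⟩
    by_contra hcon
    push Not at hcon
    obtain ⟨x1, hx1, hfx1⟩ := hcon
    have hA : IsCompact {z | z ∈ Icc 0 x1 ∧ f z = 0} :=
      isCompact_Icc.inter_right (isClosed_eq H.cont continuous_const)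
    have hB : IsCompact {z | z ∈ Icc x1 c ∧ f z = 0} :=
      isCompact_Icc.inter_right (isClosed_eq H.cont continuous_const)
    obtain ⟨a, ⟨ha1, ha2⟩, ha3⟩ := hA.exists_isGreatest ⟨0, ⟨le_rfl, hx1.1.le⟩, H.zero⟩
    obtain ⟨c', ⟨hc1, hc2⟩, hc3⟩ := hB.exists_isLeast ⟨c, ⟨hx1.2.le, le_rfl⟩, hfc⟩
    have hax : a < x1 := lt_of_le_of_ne ha1.2 (by rintro rfl; exact hfx1 ha2)
    have hcx : x1 < c' := lt_of_le_of_ne hc1.1 (by rintro rfl; exact hfx1 hc2)
    have hno : ∀ y ∈ Ioo a c', f y ≠ 0 := by
      intro y hy hy0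
      rcases le_or_gt y x1 with h | h
      · have := ha3 (show y ∈ {z | z ∈ Icc 0 x1 ∧ f z = 0} from
          ⟨⟨ha1.1.trans hy.1.le, h⟩, hy0⟩)
        linarith [hy.1]
      · have := hc3 (show y ∈ {z | z ∈ Icc x1 c ∧ f z = 0} from
          ⟨⟨h.le, hy.2.le.trans hc1.2⟩, hy0⟩)
        linarith [hy.2]
    rcases lt_or_gt_of_ne hfx1 with hs | hs
    · have hneg := sign_const' isPreconnected_Ioo H.cont hno ⟨hax, hcx⟩ hs
      obtain ⟨w, hw1, hw2, hw3⟩ := H.conj.gap (a := -c') (c := -a) (by linarith)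
        (by simp [hc2]) (by simp [ha2]) (fun x hx => by
          have := hneg (-x) ⟨by linarith [hx.2], by linarith [hx.1]⟩
          linarith)
      refine hW (-w) (by rw [abs_neg, abs_of_pos hw1]; exact hw1) ?_ ?_
      · rw [abs_neg, abs_of_pos hw1]
        linarith [ha1.1, hc1.2, hc.2]
      · unfold ph at *
        linarith
    · have hpos := sign_const isPreconnected_Ioo H.cont hno ⟨hax, hcx⟩ hs
      obtain ⟨w, hw1, hw2, hw3⟩ := H.gap (by linarith) ha2 hc2 hpos
      refine hW w (by rw [abs_of_pos hw1]; exact hw1) ?_ hw3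
      rw [abs_of_pos hw1]
      linarith [ha1.1, hc1.2, hc.2]
  · push Not at hz
    refine ⟨ε, hε, Or.inr ?_⟩
    have hm : ε / 2 ∈ Ioo 0 ε := ⟨by linarith, by linarith⟩
    have hWn : ∀ x ∈ Ioo 0 ε, ph f x ≠ 0 := fun x hx =>
      hW x (by rw [abs_of_pos hx.1]; exact hx.1) (by rw [abs_of_pos hx.1]; exact hx.2)
    rcases lt_or_gt_of_ne (hz _ hm) with hs | hs
    · right
      have hneg := sign_const' isPreconnected_Ioo H.cont hz hm hs
      rcases lt_or_gt_of_ne (hWn _ hm) with hs' | hs'
      · right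
        exact sign_const' isPreconnected_Ioo H.cph hWn hm hs'
      · left
        intro x hx
        exact ⟨hneg x hx, sign_const isPreconnected_Ioo H.cph hWn hm hs' x hx⟩
    · left
      exact sign_const isPreconnected_Ioo H.cont hz hm hs

/-- If `f` vanishes near `0` on the right, it vanishes on the right. -/
lemma Sol.zero_right (H : Sol f) {c : ℝ} (hc : 0 < c) (h : ∀ x ∈ Ioo 0 c, f x = 0) :
    ∀ x, 0 ≤ x → f x = 0 := by
  -- `f ≤ 0` on the left
  have hleft : ∀ y, y ≤ 0 → f y ≤ 0 := by
    intro y hy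
    by_contra hcon
    push Not at hcon
    set r := min (f y) (c / 2) with hr
    have hr0 : 0 < r := by positivity
    have hrc : r < c := lt_of_le_of_lt (min_le_right _ _) (by linarith)
    obtain ⟨y', hy', hfy'⟩ := intermediate_value_Icc' hy H.cont.continuousOn
      (show r ∈ Icc (f 0) (f y) by rw [H.zero]; exact ⟨hr0.le, min_le_left _ _⟩)
    have hstep : ∀ n : ℕ, f (y' + n * r) = r := by
      intro n
      induction n with
      | zero => simpa using hfy'
      | succ n ih =>
        have h1 := H.eqn (y' + n * r)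
        rw [ih, h r ⟨hr0, hrc⟩, add_zero] at h1
        have e : y' + ((n + 1 : ℕ) : ℝ) * r = y' + n * r + r := by push_cast; ring
        rw [e]
        exact h1
    have hy'0 : y' < 0 := by
      rcases hy'.2.lt_or_eq with h1 | h1
      · exact h1
      · rw [h1, H.zero] at hfy'; linarith
    set n := ⌊-y' / r⌋₊ + 1 with hn
    have h1 := Nat.floor_le (show 0 ≤ -y' / r by apply div_nonneg <;> linarith)
    have h2 := Nat.lt_floor_add_one (-y' / r)
    rw [le_div_iff₀ hr0] at h1
    rw [div_lt_iff₀ hr0] at h2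
    have h3 : (n : ℝ) = (⌊-y' / r⌋₊ : ℝ) + 1 := by rw [hn]; push_cast; ring
    have h4 : 0 < y' + n * r := by rw [h3]; linarith
    have h5 : y' + n * r ≤ r := by rw [h3]; linarith
    have h6 := h _ ⟨h4, lt_of_le_of_lt h5 hrc⟩
    rw [hstep n] at h6
    linarith
  intro x0 hx0
  by_contra hx0f
  set N := {x | 0 ≤ x ∧ f x ≠ 0} with hN
  have hNn : N.Nonempty := ⟨x0, hx0, hx0f⟩
  have hNb : BddBelow N := ⟨0, fun x hx => hx.1⟩
  set d := sInf N with hd
  have hz1 : ∀ z, 0 ≤ z → z < d → f z = 0 := by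
    intro z hz hzd
    by_contra hzf
    exact absurd (csInf_le hNb (show z ∈ N from ⟨hz, hzf⟩)) (not_le.2 hzd)
  have hdc : c ≤ d := by
    apply le_csInf hNn
    intro x hx
    by_contra hlt
    push Not at hlt
    rcases hx.1.eq_or_lt with h1 | h1
    · exact hx.2 (by rw [← h1]; exact H.zero)
    · exact hx.2 (h x ⟨h1, hlt⟩)
  have hd0 : 0 < d := lt_of_lt_of_le hc hdc
  have hfd : f d = 0 := by
    have h1 : Tendsto f (𝓝[<] d) (𝓝 (f d)) := (H.cont.tendsto d).mono_left nhdsWithin_le_nhds
    have h2 : f =ᶠ[𝓝[<] d] fun _ => 0 := by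
      filter_upwards [Ioo_mem_nhdsLT hd0] with z hz
      exact hz1 z hz.1.le hz.2
    exact tendsto_nhds_unique h1 (tendsto_const_nhds.congr' h2.symm)
  have hz : ∀ z, 0 ≤ z → z ≤ d → f z = 0 := by
    intro z hz hzd
    rcases hzd.lt_or_eq with h1 | h1
    · exact hz1 z hz h1
    · rw [h1]; exact hfd
  obtain ⟨ε, hε, hcε⟩ := Metric.continuousAt_iff.1 (H.cont.continuousAt (x := d)) d hd0
  obtain ⟨x, hxN, hxε⟩ := exists_lt_of_csInf_lt hNn (show sInf N < d + ε by linarith)
  have hdx : d < x := by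
    have h1 : d ≤ x := csInf_le hNb hxN
    rcases h1.lt_or_eq with h2 | h2
    · exact h2
    · exact absurd hfd (by rw [h2]; exact hxN.2)
  have hsmall : ∀ p, d < p → p ≤ x → |f p| < d := by
    intro p h1 h2
    have := hcε (show dist p d < ε by rw [Real.dist_eq, abs_of_pos (by linarith)]; linarith)
    rwa [hfd, Real.dist_eq, sub_zero] at this
  rcases lt_or_gt_of_ne hxN.2 with hs | hs
  · -- negative value
    have hphneg : ∀ n, (ph f)^[n] (f x) ≤ f x := by
      intro n
      induction n with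
      | zero => exact le_rfl
      | succ n ih =>
        rw [Function.iterate_succ_apply']
        have := hleft _ (ih.trans hs.le)
        unfold ph at *
        linarith
    have hdec : ∀ n : ℕ, (ph f)^[n] x ≤ x + n * f x := by
      intro n
      induction n with
      | zero => simp
      | succ n ih =>
        rw [Function.iterate_succ_apply']
        have h1 := hphneg n
        rw [← H.iter] at h1
        have : ph f ((ph f)^[n] x) = (ph f)^[n] x + f ((ph f)^[n] x) := rfl
        rw [this]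
        push_cast
        linarith
    have hex : ∃ n, (ph f)^[n] x ≤ d := by
      obtain ⟨n, hn⟩ := exists_nat_gt (x / (-f x))
      rw [div_lt_iff₀ (by linarith)] at hn
      exact ⟨n, by linarith [hdec n]⟩
    classical
    have hspec := Nat.find_spec hex
    have hn0 : Nat.find hex ≠ 0 := by
      intro h0
      rw [h0] at hspec
      simp only [Function.iterate_zero_apply] at hspec
      linarith
    obtain ⟨m, hm⟩ := Nat.exists_eq_succ_of_ne_zero hn0
    have hmin := Nat.find_min hex (m := m) (by omega)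
    rw [not_le] at hmin
    have hle : (ph f)^[m] x ≤ x := by
      have := hdec m
      have : (m : ℝ) * f x ≤ 0 := mul_nonpos_of_nonneg_of_nonpos (Nat.cast_nonneg _) hs.le
      linarith
    have h1 := hsmall _ hmin hle
    rw [hm, Nat.succ_eq_add_one, Function.iterate_succ_apply'] at hspec
    have h2 : 0 ≤ ph f ((ph f)^[m] x) := by
      unfold ph at *
      have := neg_abs_le (f ((ph f)^[m] x))
      unfold ph at *
      linarith
    have h3 := hz _ h2 hspec
    have h4 := hphneg (m + 1)
    rw [← H.iter, Function.iterate_succ_apply', h3] at h4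
    linarith
  · -- positive value
    obtain ⟨δ, hδ, hcδ⟩ := Metric.continuousAt_iff.1 (H.cont.continuousAt (x := x)) (f x / 2)
      (by linarith)
    set η := min (δ / 2) (min (f x / 4) d) with hη
    have hη0 : 0 < η := by positivity
    have hη1 : η < δ := lt_of_le_of_lt (min_le_left _ _) (by linarith)
    have hη2 : η ≤ f x / 4 := (min_le_right _ _).trans (min_le_left _ _)
    have hη3 : η ≤ d := (min_le_right _ _).trans (min_le_right _ _)
    obtain ⟨y, hy, hfy⟩ := intermediate_value_Icc hdx.le H.cont.continuousOn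
      (show η ∈ Icc (f d) (f x) by rw [hfd]; exact ⟨hη0.le, by linarith⟩)
    have hstep : ∀ n : ℕ, f (y + n * η) = η := by
      intro n
      induction n with
      | zero => simpa using hfy
      | succ n ih =>
        have h1 := H.eqn (y + n * η)
        rw [ih, hz η hη0.le hη3, add_zero] at h1
        have e : y + ((n + 1 : ℕ) : ℝ) * η = y + n * η + η := by push_cast; ring
        rw [e]
        exact h1
    have h1 := Nat.floor_le (show 0 ≤ (x - y) / η by apply div_nonneg <;> linarith [hy.2])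
    have h2 := Nat.lt_floor_add_one ((x - y) / η)
    rw [le_div_iff₀ hη0] at h1
    rw [div_lt_iff₀ hη0] at h2
    have h3 := hcδ (show dist (y + (⌊(x - y) / η⌋₊ : ℝ) * η) x < δ by
      rw [Real.dist_eq, abs_lt]; constructor <;> linarith)
    rw [hstep, Real.dist_eq, abs_lt] at h3
    linarith [h3.1]

/-- If `f > 0` near `0` on the right, then `f > 0` on the right. -/
lemma Sol.pos_right (H : Sol f) {c : ℝ} (hc : 0 < c) (h : ∀ x ∈ Ioo 0 c, 0 < f x) :
    ∀ x, 0 < x → 0 < f x := by
  intro x0 hx0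
  by_contra hcon
  push Not at hcon
  have hxc : c ≤ x0 := by
    by_contra hlt
    push Not at hlt
    linarith [h x0 ⟨hx0, hlt⟩]
  obtain ⟨z, hz, hz0⟩ := intermediate_value_Icc' (show c / 2 ≤ x0 by linarith) H.cont.continuousOn
    (show (0 : ℝ) ∈ Icc (f x0) (f (c / 2)) from ⟨hcon, (h _ ⟨by linarith, by linarith⟩).le⟩)
  have hB : IsCompact {z | z ∈ Icc (c / 2) x0 ∧ f z = 0} :=
    isCompact_Icc.inter_right (isClosed_eq H.cont continuous_const)
  obtain ⟨d, ⟨hd1, hd2⟩, hd3⟩ := hB.exists_isLeast ⟨z, hz, hz0⟩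
  have hno : ∀ y ∈ Ioo 0 d, f y ≠ 0 := by
    intro y hy hy0
    rcases lt_or_ge y (c / 2) with h1 | h1
    · linarith [h y ⟨hy.1, by linarith⟩]
    · have := hd3 (show y ∈ {z | z ∈ Icc (c / 2) x0 ∧ f z = 0} from
        ⟨⟨h1, hy.2.le.trans hd1.2⟩, hy0⟩)
      linarith [hy.2]
  have hd0 : 0 < d := by linarith [hd1.1]
  have hm : min (c / 4) (d / 2) ∈ Ioo 0 d :=
    ⟨by positivity, lt_of_le_of_lt (min_le_right _ _) (by linarith)⟩
  have hpos := sign_const isPreconnected_Ioo H.cont hno hm
    (h _ ⟨by positivity, lt_of_le_of_lt (min_le_left _ _) (by linarith)⟩)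
  obtain ⟨w, hw1, hw2, hw3⟩ := H.gap hd0 H.zero hd2 hpos
  have := hpos w ⟨hw1, by linarith⟩
  unfold ph at hw3
  linarith

end Pool.Agent.Q132.FEq
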