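import Pool.Agent.Q132.FEq.Haus

open Set Filter Topology

namespace Pool.Agent.Q132.FEq

structure Small (X : Set ℝ) (α β : ℝ → ℝ) : Prop where
  ca : Continuous α
  cb : Continuous β
  ma : ∀ x ∈ X, α x ∈ X
  mb : ∀ x ∈ X, β x ∈ X
  comm : ∀ x ∈ X, α (β x) = β (α x)
  norm : ∀ x ∈ X, |x| = |α x| + |β x|
  na : ∀ x ∈ X, x ≠ 0 → α x ≠ 0
  nb : ∀ x ∈ X, x ≠ 0 → β x ≠ 0
  comp : ∀ x ∈ X, IsCompact {z | z ∈ X ∧ |z| ≤ |x|}
  posa : ∀ x ∈ X, 0 < x → 0 < α (α x)
  posb : ∀ x ∈ X, 0 < x → 0 < β (β x)
  down : ∀ x ∈ X, ∀ y, 0 ≤ y → y ≤ x → y ∈ X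

variable {X : Set ℝ} {α β : ℝ → ℝ}

lemma Small.symm (H : Small X α β) : Small X β α where
  ca := H.cb
  cb := H.ca
  ma := H.mb
  mb := H.ma
  comm := fun x hx => (H.comm x hx).symm
  norm := fun x hx => by rw [H.norm x hx, add_comm]
  na := H.nb
  nb := H.na
  comp := H.comp
  posa := H.posb
  posb := H.posa
  down := H.down

lemma Small.ia (H : Small X α β) (i : ℕ) {x : ℝ} (hx : x ∈ X) : α^[i] x ∈ X := by
  induction i with
  | zero => exact hx
  | succ i ih => rw [Function.iterate_succ_apply']; exact H.ma _ ih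

lemma Small.ina (H : Small X α β) (i : ℕ) {x : ℝ} (hx : x ∈ X) (h0 : x ≠ 0) : α^[i] x ≠ 0 := by
  induction i with
  | zero => exact h0
  | succ i ih => rw [Function.iterate_succ_apply']; exact H.na _ (H.ia i hx) ih

lemma Small.ib (H : Small X α β) (i : ℕ) {x : ℝ} (hx : x ∈ X) : β^[i] x ∈ X := H.symm.ia i hx

lemma Small.inb (H : Small X α β) (i : ℕ) {x : ℝ} (hx : x ∈ X) (h0 : x ≠ 0) : β^[i] x ≠ 0 :=
  H.symm.ina i hx h0

lemma Small.comm1 (H : Small X α β) (i : ℕ) {x : ℝ} (hx : x ∈ X) :
    α^[i] (β x) = β (α^[i] x) := by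
  induction i with
  | zero => rfl
  | succ i ih =>
    rw [Function.iterate_succ_apply', Function.iterate_succ_apply', ih, H.comm _ (H.ia i hx)]

lemma Small.comm2 (H : Small X α β) (i j : ℕ) {x : ℝ} (hx : x ∈ X) :
    α^[i] (β^[j] x) = β^[j] (α^[i] x) := by
  induction j with
  | zero => rfl
  | succ j ih =>
    rw [Function.iterate_succ_apply', Function.iterate_succ_apply', H.comm1 i (H.ib j hx), ih]

lemma Small.lc (H : Small X α β) {x : ℝ} (hx : x ∈ X) : |α x| ^ 2 ≤ |x| * |α (α x)| := by
  have key := logconv (fun i j => |α^[i] (β^[j] x)|) (fun i j => by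
    have h1 := H.norm _ (H.ia i (H.ib j hx))
    rw [Function.iterate_succ_apply', Function.iterate_succ_apply',
      H.comm1 i (H.ib j hx)]
    exact h1) (fun i j => abs_nonneg _)
  exact key

/-- The ratio. -/
noncomputable def E (α : ℝ → ℝ) (x : ℝ) : ℝ := |α x| / |x|

lemma Small.E_pos (H : Small X α β) {x : ℝ} (hx : x ∈ X) (h0 : x ≠ 0) : 0 < E α x :=
  div_pos (abs_pos.2 (H.na x hx h0)) (abs_pos.2 h0)

lemma Small.E_add (H : Small X α β) {x : ℝ} (hx : x ∈ X) (h0 : x ≠ 0) : E α x + E β x = 1 := by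
  unfold E
  rw [← add_div, ← H.norm x hx, div_self (abs_pos.2 h0).ne']

lemma Small.E_lt (H : Small X α β) {x : ℝ} (hx : x ∈ X) (h0 : x ≠ 0) : E α x < 1 := by
  have := H.E_add hx h0
  have := H.symm.E_pos hx h0
  linarith

lemma Small.E_mono (H : Small X α β) {x : ℝ} (hx : x ∈ X) (h0 : x ≠ 0) :
    E α x ≤ E α (α x) := by
  unfold E
  have h1 := abs_pos.2 h0
  have h2 := abs_pos.2 (H.na x hx h0)
  rw [div_le_div_iff₀ h1 h2]
  have := H.lc hx
  nlinarith

lemma Small.E_anti (H : Small X α β) {x : ℝ} (hx : x ∈ X) (h0 : x ≠ 0) :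
    E α (β x) ≤ E α x := by
  have h1 := H.symm.E_mono hx h0
  have h2 := H.E_add hx h0
  have h3 := H.E_add (H.mb x hx) (H.nb x hx h0)
  linarith

lemma Small.rel (H : Small X α β) {x : ℝ} (hx : x ∈ X) (h0 : x ≠ 0) :
    (1 - E α x) * (E α x - E α (β x)) = E α x * (E α (α x) - E α x) := by
  have h1 := abs_pos.2 h0
  have h2 := abs_pos.2 (H.na x hx h0)
  have h3 := abs_pos.2 (H.nb x hx h0)
  have e1 : E α x * |x| = |α x| := div_mul_cancel₀ _ h1.ne'
  have e2 : E α (α x) * |α x| = |α (α x)| := div_mul_cancel₀ _ h2.ne'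
  have e3 : E α (β x) * |β x| = |α (β x)| := div_mul_cancel₀ _ h3.ne'
  have e4 := H.norm _ (H.ma x hx)
  rw [← H.comm x hx, ← e2, ← e3, ← e1] at e4
  have e5 : |β x| = (1 - E α x) * |x| := by
    have := H.norm x hx
    rw [← e1] at this
    linarith
  rw [e5] at e4
  have e6 : E α x * |x| = (E α (α x) * E α x + E α (β x) * (1 - E α x)) * |x| := by
    linarith
  have e7 := mul_right_cancel₀ h1.ne' e6
  linarith

lemma Small.abs_anti (H : Small X α β) {x : ℝ} (hx : x ∈ X) : |α x| ≤ |x| := by
  rw [H.norm x hx]; linarith [abs_nonneg (β x)]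

lemma Small.tendsto_zero (H : Small X α β) {x : ℝ} (hx : x ∈ X) :
    Tendsto (fun k => |α^[k] x|) atTop (𝓝 0) := by
  have hanti : Antitone fun k => |α^[k] x| := by
    apply antitone_nat_of_succ_le
    intro k
    rw [Function.iterate_succ_apply']
    exact H.abs_anti (H.ia k hx)
  have hbdd : BddBelow (range fun k => |α^[k] x|) := ⟨0, by rintro _ ⟨k, rfl⟩; exact abs_nonneg _⟩
  have hlim := tendsto_atTop_ciInf hanti hbdd
  set ℓ := ⨅ k, |α^[k] x| with hℓ
  have hℓle : ∀ k, ℓ ≤ |α^[k] x| := fun k => ciInf_le hbdd k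
  have hℓ0 : 0 ≤ ℓ := le_ciInf fun k => abs_nonneg _
  rcases hℓ0.eq_or_lt with h | h
  · rw [← h] at hlim; exact hlim
  · exfalso
    have hK : IsCompact ({z | z ∈ X ∧ |z| ≤ |x|} ∩ {z | ℓ ≤ |z|}) :=
      (H.comp x hx).inter_right (isClosed_le continuous_const continuous_abs)
    have hKn : ({z | z ∈ X ∧ |z| ≤ |x|} ∩ {z | ℓ ≤ |z|}).Nonempty :=
      ⟨x, ⟨hx, le_rfl⟩, hℓle 0⟩
    obtain ⟨z, hz, hmin⟩ := hK.exists_isMinOn hKn (f := fun z => |β z|) H.cb.abs.continuousOn
    have hz0 : z ≠ 0 := by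
      rintro rfl
      have := hz.2
      simp only [mem_ofPred_eq, abs_zero] at this
      linarith
    have hδ : 0 < |β z| := abs_pos.2 (H.nb z hz.1.1 hz0)
    have hstep : ∀ k, |α^[k + 1] x| ≤ |α^[k] x| - |β z| := by
      intro k
      have h1 := H.norm _ (H.ia k hx)
      have h2 : |β z| ≤ |β (α^[k] x)| :=
        hmin ⟨⟨H.ia k hx, hanti (Nat.zero_le k)⟩, hℓle k⟩
      rw [Function.iterate_succ_apply']
      linarith
    have h3 : ℓ ≤ ℓ - |β z| := by
      refine le_of_tendsto_of_tendsto (hlim.comp (tendsto_add_atTop_nat 1)) (hlim.sub_const _)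
        (Eventually.of_forall fun k => ?_)
      exact hstep k
    linarith

lemma Small.inj (H : Small X α β) {x y : ℝ} (hx : x ∈ X) (hy : y ∈ X) (h : α x = α y) :
    |x| = |y| := by
  have hd : ∀ n, |β^[n] x| - |β^[n] y| = |x| - |y| := by
    intro n
    induction n with
    | zero => rfl
    | succ n ih =>
      have h1 := H.norm _ (H.ib n hx)
      have h2 := H.norm _ (H.ib n hy)
      have h3 : α (β^[n] x) = α (β^[n] y) := by
        have c1 : α (β^[n] x) = β^[n] (α x) := H.comm2 1 n hx
        have c2 : α (β^[n] y) = β^[n] (α y) := H.comm2 1 n hy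
        rw [c1, c2, h]
      rw [Function.iterate_succ_apply', Function.iterate_succ_apply']
      rw [h3] at h1
      linarith
  have h1 := (H.symm.tendsto_zero hx).sub (H.symm.tendsto_zero hy)
  have h2 : Tendsto (fun n => |β^[n] x| - |β^[n] y|) atTop (𝓝 (|x| - |y|)) := by
    simp only [hd]
    exact tendsto_const_nhds
  have h3 := tendsto_nhds_unique h1 h2
  linarith

lemma Small.zero (H : Small X α β) (h0 : (0 : ℝ) ∈ X) : α 0 = 0 := by
  have := H.norm 0 h0
  have := abs_nonneg (α 0)
  have := abs_nonneg (β 0)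
  rw [← abs_eq_zero]
  rw [abs_zero] at *
  linarith

lemma Small.mono2 (H : Small X α β) {x y : ℝ} (hx : 0 < x) (hy : y ∈ X) (hxy : x < y) :
    α (α x) < α (α y) := by
  by_contra hcon
  push Not at hcon
  have hxX : x ∈ X := H.down y hy x hx.le hxy.le
  have h0X : (0 : ℝ) ∈ X := H.down y hy 0 le_rfl (hx.trans hxy).le
  have hcont : ContinuousOn (fun z => α (α z)) (Icc 0 x) := (H.ca.comp H.ca).continuousOn
  have hz0 : α (α 0) = 0 := by rw [H.zero h0X, H.zero h0X]
  obtain ⟨z, hz, hze⟩ := intermediate_value_Icc hx.le hcont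
    (show α (α y) ∈ Icc (α (α 0)) (α (α x)) by
      rw [hz0]; exact ⟨(H.posa y hy (hx.trans hxy)).le, hcon⟩)
  have hzX : z ∈ X := H.down y hy z hz.1 (hz.2.trans hxy.le)
  have h1 : |α z| = |α y| := H.inj (H.ma z hzX) (H.ma y hy) hze
  have h2 : |z| = |y| := by
    -- iterate the length identity
    have h3 : ∀ n, |β^[n] z| - |β^[n] y| = |z| - |y| := by
      intro n
      induction n with
      | zero => rfl
      | succ n ih =>
        have e1 := H.norm _ (H.ib n hzX)
        have e2 := H.norm _ (H.ib n hy)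
        have e3 : |α (β^[n] z)| = |α (β^[n] y)| := by
          apply H.inj (H.ma _ (H.ib n hzX)) (H.ma _ (H.ib n hy))
          have c1 := H.comm2 2 n hzX
          have c2 := H.comm2 2 n hy
          change α (α (β^[n] z)) = β^[n] (α (α z)) at c1
          change α (α (β^[n] y)) = β^[n] (α (α y)) at c2
          have hze' : α (α z) = α (α y) := hze
          rw [c1, c2, hze']
        rw [Function.iterate_succ_apply', Function.iterate_succ_apply']
        linarith
    have e1 := (H.symm.tendsto_zero hzX).sub (H.symm.tendsto_zero hy)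
    have e2 : Tendsto (fun n => |β^[n] z| - |β^[n] y|) atTop (𝓝 (|z| - |y|)) := by
      simp only [h3]
      exact tendsto_const_nhds
    have e3 := tendsto_nhds_unique e1 e2
    linarith
  rw [abs_of_nonneg hz.1, abs_of_pos (hx.trans hxy)] at h2
  linarith [hz.2]

lemma Small.pos_iter (H : Small X α β) (k : ℕ) {x : ℝ} (hx : x ∈ X) (h0 : 0 < x) :
    0 < α^[2 * k] x := by
  induction k with
  | zero => exact h0
  | succ k ih =>
    rw [show 2 * (k + 1) = 2 * k + 1 + 1 by ring, Function.iterate_succ_apply',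
      Function.iterate_succ_apply']
    exact H.posa _ (H.ia _ hx) ih

lemma Small.mono_iter (H : Small X α β) (k : ℕ) {x y : ℝ} (hx : 0 < x) (hy : y ∈ X)
    (hxy : x < y) : α^[2 * k] x < α^[2 * k] y := by
  have hxX : x ∈ X := H.down y hy x hx.le hxy.le
  induction k with
  | zero => exact hxy
  | succ k ih =>
    rw [show 2 * (k + 1) = 2 * k + 1 + 1 by ring, Function.iterate_succ_apply',
      Function.iterate_succ_apply', Function.iterate_succ_apply', Function.iterate_succ_apply']
    exact H.mono2 (H.pos_iter k hxX hx) (H.ia _ hy) ih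

/-- The limit of the ratios along the `α`-orbit. -/
lemma Small.lim (H : Small X α β) {x : ℝ} (hx : x ∈ X) (h0 : x ≠ 0) :
    ∃ b : ℝ, Tendsto (fun k => E α (α^[k] x)) atTop (𝓝 b) ∧ b ≤ 1 ∧
      ∀ k, E α (α^[k] x) ≤ b := by
  have hm : Monotone fun k => E α (α^[k] x) := by
    apply monotone_nat_of_le_succ
    intro k
    rw [Function.iterate_succ_apply']
    exact H.E_mono (H.ia k hx) (H.ina k hx h0)
  have hb : BddAbove (range fun k => E α (α^[k] x)) :=
    ⟨1, by rintro _ ⟨k, rfl⟩; exact (H.E_lt (H.ia k hx) (H.ina k hx h0)).le⟩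
  exact ⟨_, tendsto_atTop_ciSup hm hb, ciSup_le fun k => (H.E_lt (H.ia k hx) (H.ina k hx h0)).le,
    fun k => le_ciSup hb k⟩

lemma Small.ul1 (H : Small X α β) {x : ℝ} (hx : x ∈ X) (h0 : x ≠ 0) {b : ℝ}
    (hb : Tendsto (fun k => E α (α^[k] x)) atTop (𝓝 b)) (i : ℕ) :
    Tendsto (fun k => |α^[i] (α^[k] x)| / |α^[k] x|) atTop (𝓝 (b ^ i)) := by
  induction i with
  | zero =>
    have : (fun k => |α^[0] (α^[k] x)| / |α^[k] x|) = fun _ => (1 : ℝ) := by
      funext k
      exact div_self (abs_pos.2 (H.ina k hx h0)).ne'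
    rw [this, pow_zero]
    exact tendsto_const_nhds
  | succ i ih =>
    have h1 : Tendsto (fun k => E α (α^[i] (α^[k] x))) atTop (𝓝 b) := by
      have := hb.comp (tendsto_add_atTop_nat i)
      refine this.congr fun k => ?_
      change E α (α^[k + i] x) = _
      rw [add_comm, Function.iterate_add_apply]
    have h2 := h1.mul ih
    rw [pow_succ, mul_comm (b ^ i) b]
    refine h2.congr fun k => ?_
    unfold E
    rw [Function.iterate_succ_apply']
    have := abs_pos.2 (H.ina i (H.ia k hx) (H.ina k hx h0))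
    field_simp

lemma Small.ul2 (H : Small X α β) {x : ℝ} (hx : x ∈ X) (h0 : x ≠ 0) {b : ℝ}
    (hb : Tendsto (fun k => E α (α^[k] x)) atTop (𝓝 b)) (hb1 : b ≤ 1) (i : ℕ) :
    Tendsto (fun k => |β^[i] (α^[k] x)| / |α^[k] x|) atTop (𝓝 ((1 - b) ^ i)) := by
  have hbi : ∀ n, ∀ z ∈ X, |β^[n] z| ≤ |z| := by
    intro n
    induction n with
    | zero => intro z _; exact le_rfl
    | succ n ih =>
      intro z hz
      rw [Function.iterate_succ_apply']
      exact (H.symm.abs_anti (H.ib n hz)).trans (ih z hz)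
  rcases hb1.lt_or_eq with hb1 | hb1
  · have hL : ∀ i, Tendsto (fun k => E α (β^[i] (α^[k] x))) atTop (𝓝 b) := by
      intro i
      induction i with
      | zero => exact hb
      | succ i ih =>
        have h1 : Tendsto (fun k => E α (α (β^[i] (α^[k] x)))) atTop (𝓝 b) := by
          have := ih.comp (tendsto_add_atTop_nat 1)
          refine this.congr fun k => ?_
          change E α (β^[i] (α^[k + 1] x)) = _
          rw [Function.iterate_succ_apply']
          have := H.comm2 1 i (H.ia k hx)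
          simp only [Function.iterate_one] at this
          rw [this]
        have h2 : Tendsto (fun k => E α (β^[i] (α^[k] x)) * (E α (α (β^[i] (α^[k] x))) -
            E α (β^[i] (α^[k] x))) / (1 - E α (β^[i] (α^[k] x)))) atTop
            (𝓝 (b * (b - b) / (1 - b))) :=
          (ih.mul (h1.sub ih)).div (ih.const_sub 1) (by linarith)
        have h3 := ih.sub h2
        rw [sub_self, mul_zero, zero_div, sub_zero] at h3
        refine h3.congr fun k => ?_
        have hz := H.ib i (H.ia k hx)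
        have hz0 := H.inb i (H.ia k hx) (H.ina k hx h0)
        have h4 := H.rel hz hz0
        have h5 := H.E_lt hz hz0
        rw [Function.iterate_succ_apply', ← h4, mul_div_cancel_left₀ _ (by linarith)]
        ring
    induction i with
    | zero =>
      have : (fun k => |β^[0] (α^[k] x)| / |α^[k] x|) = fun _ => (1 : ℝ) := by
        funext k
        exact div_self (abs_pos.2 (H.ina k hx h0)).ne'
      rw [this, pow_zero]
      exact tendsto_const_nhds
    | succ i ih =>
      have h2 := ((hL i).const_sub 1).mul ih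
      rw [pow_succ, mul_comm ((1 - b) ^ i) (1 - b)]
      refine h2.congr fun k => ?_
      have hz := H.ib i (H.ia k hx)
      have hz0 := H.inb i (H.ia k hx) (H.ina k hx h0)
      have h3 := H.E_add hz hz0
      rw [show 1 - E α (β^[i] (α^[k] x)) = E β (β^[i] (α^[k] x)) by linarith]
      unfold E
      rw [Function.iterate_succ_apply']
      have := abs_pos.2 hz0
      field_simp
  · subst hb1
    rcases Nat.eq_zero_or_pos i with h | h
    · subst h
      have : (fun k => |β^[0] (α^[k] x)| / |α^[k] x|) = fun _ => (1 : ℝ) := by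
        funext k
        exact div_self (abs_pos.2 (H.ina k hx h0)).ne'
      rw [this, pow_zero]
      exact tendsto_const_nhds
    · rw [sub_self, zero_pow h.ne']
      have h1 : Tendsto (fun k => 1 - E α (α^[k] x)) atTop (𝓝 0) := by
        have := hb.const_sub 1
        rwa [sub_self] at this
      refine squeeze_zero (fun k => by positivity) (fun k => ?_) h1
      have hz := H.ia k hx
      have hz0 := H.ina k hx h0
      have h3 := H.E_add hz hz0
      rw [show 1 - E α (α^[k] x) = E β (α^[k] x) by linarith]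
      unfold E
      obtain ⟨j, rfl⟩ : ∃ j, i = j + 1 := ⟨i - 1, by omega⟩
      rw [Function.iterate_succ_apply]
      have := hbi j _ (H.mb _ hz)
      gcongr

lemma pow_le_contra {a b x y : ℝ} (_ : 0 < a) (hb : 0 < b) (hx : 0 < x)
    (h : ∀ k : ℕ, a ^ (2 * k) * x ≤ b ^ (2 * k) * y) : a ≤ b := by
  by_contra hcon
  push Not at hcon
  have hlim : Tendsto (fun k => ((a / b) ^ 2) ^ k) atTop atTop :=
    tendsto_pow_atTop_atTop_of_one_lt (by
      have : 1 < a / b := by rw [lt_div_iff₀ hb]; linarith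
      nlinarith)
  obtain ⟨k, hk⟩ := (hlim.eventually (eventually_gt_atTop (y / x))).exists
  rw [div_lt_iff₀ hx, ← pow_mul, div_pow, div_mul_eq_mul_div, lt_div_iff₀ (by positivity)] at hk
  linarith [h k]

/-- The ratio is constant along orbits. -/
lemma Small.const_orbit (H : Small X α β) {x : ℝ} (hx : x ∈ X) (h0 : 0 < x) (k : ℕ) :
    E α (α^[k] x) = E α x ∧ E β (β^[k] x) = E β x := by
  obtain ⟨b, hb, hb1, hbk⟩ := H.lim hx h0.ne'
  obtain ⟨c, hc, hc1, hck⟩ := H.symm.lim hx h0.ne'
  have hadd := H.E_add hx h0.ne'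
  have hEb : E α x ≤ b := hbk 0
  have hEc : E β x ≤ c := hck 0
  have hEpos := H.E_pos hx h0.ne'
  have hEpos' := H.symm.E_pos hx h0.ne'
  -- the main claim
  have main : b + c ≤ 1 := by
    by_contra hcon
    push Not at hcon
    have h2k : Tendsto (fun k : ℕ => 2 * k) atTop atTop :=
      tendsto_id.const_mul_atTop' (by norm_num)
    -- comparison of powers
    have cmp : ∀ n : ℕ, ∃ m : ℕ, α^[2 * (m + 1)] x < β^[2 * n] x ∧ β^[2 * n] x ≤ α^[2 * m] x := by
      intro n
      have hpos := H.symm.pos_iter n hx h0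
      have hex : ∃ m : ℕ, α^[2 * (m + 1)] x < β^[2 * n] x := by
        have h1 := (H.tendsto_zero hx).comp h2k
        have h2 := (h1.comp (tendsto_add_atTop_nat 1)).eventually (gt_mem_nhds hpos)
        obtain ⟨m, hm⟩ := h2.exists
        exact ⟨m, lt_of_le_of_lt (le_abs_self _) hm⟩
      classical
      refine ⟨Nat.find hex, Nat.find_spec hex, ?_⟩
      rcases Nat.eq_zero_or_pos (Nat.find hex) with h | h
      · rw [h]
        have h1 : |β^[2 * n] x| ≤ |x| := by
          have hbi : ∀ n, |β^[n] x| ≤ |x| := by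
            intro n
            induction n with
            | zero => exact le_rfl
            | succ n ih =>
              rw [Function.iterate_succ_apply']
              exact (H.symm.abs_anti (H.ib n hx)).trans ih
          exact hbi _
        rw [abs_of_pos hpos, abs_of_pos h0] at h1
        exact h1
      · have h1 := Nat.find_min hex (m := Nat.find hex - 1) (by omega)
        rw [not_lt, show Nat.find hex - 1 + 1 = Nat.find hex by omega] at h1
        exact h1
    have ineq1 : ∀ n m : ℕ, α^[2 * (m + 1)] x < β^[2 * n] x →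
        b ^ (2 * (m + 1)) ≤ (1 - b) ^ (2 * n) := by
      intro n m h
      have t1 := (H.ul1 hx h0.ne' hb (2 * (m + 1))).comp h2k
      have t2 := (H.ul2 hx h0.ne' hb hb1 (2 * n)).comp h2k
      refine le_of_tendsto_of_tendsto t1 t2 (Eventually.of_forall fun k => ?_)
      have h1 := H.mono_iter k (H.pos_iter (m + 1) hx h0) (H.ib _ hx) h
      rw [← Function.iterate_add_apply, add_comm, Function.iterate_add_apply,
        H.comm2 _ _ hx] at h1
      have hz := abs_pos.2 (H.ina (2 * k) hx h0.ne')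
      have p1 := H.pos_iter (m + 1) (H.ia (2 * k) hx) (H.pos_iter k hx h0)
      have p2 := H.symm.pos_iter n (H.ia (2 * k) hx) (H.pos_iter k hx h0)
      change |α^[2 * (m + 1)] (α^[2 * k] x)| / |α^[2 * k] x| ≤
        |β^[2 * n] (α^[2 * k] x)| / |α^[2 * k] x|
      rw [abs_of_pos p1, abs_of_pos p2]
      gcongr
    have ineq2 : ∀ n m : ℕ, β^[2 * n] x ≤ α^[2 * m] x →
        c ^ (2 * n) ≤ (1 - c) ^ (2 * m) := by
      intro n m h
      have t1 := (H.symm.ul1 hx h0.ne' hc (2 * n)).comp h2k
      have t2 := (H.symm.ul2 hx h0.ne' hc hc1 (2 * m)).comp h2k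
      refine le_of_tendsto_of_tendsto t1 t2 (Eventually.of_forall fun k => ?_)
      have h1 : β^[2 * k] (β^[2 * n] x) ≤ β^[2 * k] (α^[2 * m] x) := by
        rcases h.lt_or_eq with h | h
        · exact (H.symm.mono_iter k (H.symm.pos_iter n hx h0) (H.ia _ hx) h).le
        · rw [h]
      rw [← Function.iterate_add_apply, add_comm, Function.iterate_add_apply,
        ← H.comm2 _ _ hx] at h1
      have hz := abs_pos.2 (H.inb (2 * k) hx h0.ne')
      have p1 := H.symm.pos_iter n (H.ib (2 * k) hx) (H.symm.pos_iter k hx h0)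
      have p2 := H.pos_iter m (H.ib (2 * k) hx) (H.symm.pos_iter k hx h0)
      change |β^[2 * n] (β^[2 * k] x)| / |β^[2 * k] x| ≤
        |α^[2 * m] (β^[2 * k] x)| / |β^[2 * k] x|
      rw [abs_of_pos p1, abs_of_pos p2]
      gcongr
    -- large exponents
    have hlarge : ∀ m0 : ℕ, ∃ m : ℕ, m0 ≤ m ∧ b ^ (2 * (m + 1)) ≤ (1 - c) ^ (2 * m) := by
      intro m0
      have hpos := H.pos_iter m0 hx h0
      have h1 := ((H.symm.tendsto_zero hx).comp h2k).eventually (gt_mem_nhds hpos)
      obtain ⟨n, hn⟩ := h1.exists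
      have hn' : β^[2 * n] x < α^[2 * m0] x := lt_of_le_of_lt (le_abs_self _) hn
      obtain ⟨m, hm1, hm2⟩ := cmp n
      refine ⟨m, ?_, ?_⟩
      · by_contra hlt
        push Not at hlt
        have hanti : Antitone fun k => |α^[k] x| := by
          apply antitone_nat_of_succ_le
          intro k
          rw [Function.iterate_succ_apply']
          exact H.abs_anti (H.ia k hx)
        have h2 := hanti (show 2 * (m + 1) ≤ 2 * m0 by omega)
        simp only at h2
        rw [abs_of_pos hpos, abs_of_pos (H.pos_iter (m + 1) hx h0)] at h2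
        linarith
      · have h3 := ineq1 n m hm1
        have h4 := ineq2 n m hm2
        have h5 : (1 - b) ^ (2 * n) ≤ c ^ (2 * n) := by
          apply pow_le_pow_left₀ (by linarith)
          linarith
        exact h3.trans (h5.trans h4)
    have hbpos : 0 < b := lt_of_lt_of_le hEpos hEb
    have hc1' : 0 ≤ 1 - c := by linarith
    have hc2 : 0 < 1 - c := by
      rcases hc1'.eq_or_lt with h | h
      · exfalso
        obtain ⟨m, hm, hm'⟩ := hlarge 1
        rw [← h, zero_pow (by omega)] at hm'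
        have := pow_pos hbpos (2 * (m + 1))
        linarith
      · exact h
    have hlim : Tendsto (fun k => ((b / (1 - c)) ^ 2) ^ k) atTop atTop :=
      tendsto_pow_atTop_atTop_of_one_lt (by
        have : 1 < b / (1 - c) := by rw [lt_div_iff₀ hc2]; linarith
        nlinarith)
    obtain ⟨m0, hm0⟩ := (hlim.eventually (eventually_gt_atTop (1 / b ^ 2))).exists_forall_of_atTop
    obtain ⟨m, hm, hm'⟩ := hlarge m0
    have h6 := hm0 m hm
    rw [div_lt_iff₀ (by positivity), ← pow_mul, div_pow, div_mul_eq_mul_div,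
      lt_div_iff₀ (by positivity), one_mul] at h6
    have h7 : b ^ (2 * (m + 1)) = b ^ (2 * m) * b ^ 2 := by rw [mul_add, pow_add]
    linarith
  have e1 : E α x = b := by linarith
  have e2 : E β x = c := by linarith
  have m1 : E α x ≤ E α (α^[k] x) := by
    have hm : Monotone fun k => E α (α^[k] x) := by
      apply monotone_nat_of_le_succ
      intro k
      rw [Function.iterate_succ_apply']
      exact H.E_mono (H.ia k hx) (H.ina k hx h0.ne')
    exact hm (Nat.zero_le k)
  have m2 : E β x ≤ E β (β^[k] x) := by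
    have hm : Monotone fun k => E β (β^[k] x) := by
      apply monotone_nat_of_le_succ
      intro k
      rw [Function.iterate_succ_apply']
      exact H.symm.E_mono (H.ib k hx) (H.inb k hx h0.ne')
    exact hm (Nat.zero_le k)
  exact ⟨le_antisymm ((hbk k).trans e1.ge) m1, le_antisymm ((hck k).trans e2.ge) m2⟩

lemma Small.iter_eq (H : Small X α β) {x : ℝ} (hx : x ∈ X) (h0 : 0 < x) (k : ℕ) :
    |α^[k] x| = E α x ^ k * x := by
  induction k with
  | zero => simp [abs_of_pos h0]
  | succ k ih =>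
    have h1 := (H.const_orbit hx h0 k).1
    have h2 := abs_pos.2 (H.ina k hx h0.ne')
    rw [Function.iterate_succ_apply', pow_succ]
    have h3 : |α (α^[k] x)| = E α (α^[k] x) * |α^[k] x| := by
      unfold E; rw [div_mul_cancel₀ _ h2.ne']
    rw [h3, h1, ih]; ring

lemma Small.E_const (H : Small X α β) {x y : ℝ} (hx : x ∈ X) (h0 : 0 < x) (hy : y ∈ X)
    (h0' : 0 < y) : E α x = E α y := by
  have key : ∀ x ∈ X, ∀ y ∈ X, 0 < x → x < y → E α x = E α y := by
    intro x hx y hy h0 hxy
    have h0' : 0 < y := h0.trans hxy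
    have h1 : E α x ≤ E α y := by
      refine pow_le_contra (H.E_pos hx h0.ne') (H.E_pos hy h0'.ne') h0 (y := y) (fun k => ?_)
      rw [← H.iter_eq hx h0, ← H.iter_eq hy h0', abs_of_pos (H.pos_iter k hx h0),
        abs_of_pos (H.pos_iter k hy h0')]
      exact (H.mono_iter k h0 hy hxy).le
    have h2 : E β x ≤ E β y := by
      refine pow_le_contra (H.symm.E_pos hx h0.ne') (H.symm.E_pos hy h0'.ne') h0 (y := y)
        (fun k => ?_)
      rw [← H.symm.iter_eq hx h0, ← H.symm.iter_eq hy h0', abs_of_pos (H.symm.pos_iter k hx h0),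
        abs_of_pos (H.symm.pos_iter k hy h0')]
      exact (H.symm.mono_iter k h0 hy hxy).le
    have := H.E_add hx h0.ne'
    have := H.E_add hy h0'.ne'
    linarith
  rcases lt_trichotomy x y with h | h | h
  · exact key x hx y hy h0 h
  · rw [h]
  · exact (key y hy x hx h0' h).symm

/-- Rigidity. -/
theorem Small.rigid (H : Small X α β) {x0 : ℝ} (hx0 : x0 ∈ X) (h0 : 0 < x0) :
    ∃ b : ℝ, 0 < b ∧ b < 1 ∧ ∀ x ∈ X, 0 < x → |α x| = b * x ∧ |α (α x)| = b * |α x| := by
  refine ⟨E α x0, H.E_pos hx0 h0.ne', H.E_lt hx0 h0.ne', fun x hx hpos => ?_⟩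
  have h1 := H.E_const hx hpos hx0 h0
  have h2 := H.iter_eq hx hpos 1
  have h3 := H.iter_eq hx hpos 2
  simp only [Function.iterate_one, pow_one] at h2
  have h4 : |α (α x)| = E α x ^ 2 * x := h3
  rw [h1] at h2 h4
  refine ⟨h2, ?_⟩
  rw [h4, h2]; ring

end Pool.Agent.Q132.FEq
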